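import Pool.Agent.H88.KP.Count

/-!
# Choice of the parameters
-/

namespace Pool.Agent.H88.KP

open Filter Real Pool.Agent.H49.KNN

/-- For large `E` and `n ≤ 4 E⁵ / log E` there is a drawing in a cube of side
`≤ 5000 E⁴ log E`. -/
theorem ev_drawn : ∀ᶠ E : ℕ in atTop, ∀ n : ℕ, 2 ≤ n → (n : ℝ) * Real.log E ≤ 4 * (E : ℝ) ^ 5 →
    ∃ m : ℕ, 1 ≤ m ∧ (m : ℝ) ≤ 5000 * (E : ℝ) ^ 4 * Real.log E ∧ CanBeDrawn (Knn n) m m m := by
  have hpr := ev_pr4
  have hcast : Tendsto (fun E : ℕ => (E : ℝ)) atTop atTop := tendsto_natCast_atTop_atTop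
  have hlog : Tendsto (fun E : ℕ => Real.log (E : ℝ)) atTop atTop :=
    Real.tendsto_log_atTop.comp hcast
  have hself : Tendsto (fun E : ℕ => E) atTop atTop := tendsto_id
  -- the four applications of the count of primes
  have hmono : ∀ f : ℕ → ℕ, (∀ᶠ E in atTop, E ≤ f E) → Tendsto f atTop atTop := fun f hf =>
    tendsto_atTop_mono' _ hf hself
  have t1 : Tendsto (fun E : ℕ => 4 * (E ^ 2 * ⌈4 * Real.log E⌉₊)) atTop atTop := by
    apply hmono
    filter_upwards [eventually_ge_atTop 1, hlog.eventually_ge_atTop 1] with E h1 h2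
    have h3 : 1 ≤ ⌈4 * Real.log E⌉₊ := Nat.one_le_ceil_iff.mpr (by linarith)
    calc E = 1 * (E * 1) * 1 := by ring
      _ ≤ 4 * (E * E) * ⌈4 * Real.log E⌉₊ := by gcongr <;> omega
      _ = 4 * (E ^ 2 * ⌈4 * Real.log E⌉₊) := by ring
  have t2 : Tendsto (fun E : ℕ => 1024 * E ^ 3 * ⌈4 * Real.log E⌉₊) atTop atTop := by
    apply hmono
    filter_upwards [eventually_ge_atTop 1, hlog.eventually_ge_atTop 1] with E h1 h2
    have h3 : 1 ≤ ⌈4 * Real.log E⌉₊ := Nat.one_le_ceil_iff.mpr (by linarith)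
    calc E = 1 * (E * 1 * 1) * 1 := by ring
      _ ≤ 1024 * (E * E * E) * ⌈4 * Real.log E⌉₊ := by gcongr <;> omega
      _ = 1024 * E ^ 3 * ⌈4 * Real.log E⌉₊ := by ring
  have t3 : Tendsto (fun E : ℕ => 256 * E ^ 2) atTop atTop := by
    apply hmono
    filter_upwards [eventually_ge_atTop 1] with E h1
    calc E = 1 * (E * 1) := by ring
      _ ≤ 256 * (E * E) := by gcongr <;> omega
      _ = 256 * E ^ 2 := by ring
  have hll : ∀ᶠ x : ℝ in atTop, 4 * x + 1 ≤ Real.exp x := by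
    have h := (Real.tendsto_exp_div_pow_atTop 1).eventually_ge_atTop 5
    filter_upwards [h, eventually_ge_atTop (1 : ℝ)] with x h1 h2
    rw [pow_one, le_div_iff₀ (by linarith)] at h1
    linarith
  filter_upwards [hpr, t1.eventually hpr, t2.eventually hpr, t3.eventually hpr,
    eventually_ge_atTop 100, hlog.eventually_ge_atTop 64, hlog.eventually hll]
    with E q0 q1 q2 q3 hE hlogE hexp n hn hnE
  set l := ⌈4 * Real.log E⌉₊ with hl
  set y := Real.log (E : ℝ) with hy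
  have hE' : (100 : ℝ) ≤ E := by exact_mod_cast hE
  have hE0 : (0 : ℝ) < E := by linarith
  have hl1 : 4 * y ≤ (l : ℝ) := Nat.le_ceil _
  have hl2 : (l : ℝ) ≤ 4 * y + 1 := (Nat.ceil_lt_add_one (by linarith)).le
  have hl256 : 256 ≤ l := by
    have : (256 : ℝ) ≤ l := by linarith
    exact_mod_cast this
  have hl0 : (0 : ℝ) < l := by linarith
  have hlE : (l : ℝ) ≤ E := by
    have h1 : Real.exp y = E := Real.exp_log hE0
    rw [h1] at hexp
    linarith
  have hlogl : Real.log l ≤ y := Real.log_le_log hl0 hlE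
  have hlog4 : Real.log 4 ≤ 3 := by
    have := Real.log_le_sub_one_of_pos (show (0 : ℝ) < 4 by norm_num)
    linarith
  have hlogX1 : Real.log ((4 * (E ^ 2 * l) : ℕ) : ℝ) ≤ l := by
    push_cast
    rw [Real.log_mul (by norm_num) (by positivity), Real.log_mul (by positivity) (by positivity),
      Real.log_pow]
    push_cast
    linarith
  have hlogX2 : Real.log ((1024 * E ^ 3 * l : ℕ) : ℝ) ≤ 2 * l := by
    have h1 : ((1024 * E ^ 3 * l : ℕ) : ℝ) ≤ ((4 * (E ^ 2 * l) : ℕ) : ℝ) ^ 2 := by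
      push_cast
      have h2 : (1024 : ℝ) * E ^ 3 * l = 16 * E ^ 3 * l * 64 := by ring
      have h3 : (4 * ((E : ℝ) ^ 2 * l)) ^ 2 = 16 * E ^ 3 * l * (E * l) := by ring
      rw [h2, h3]
      apply mul_le_mul_of_nonneg_left _ (by positivity)
      nlinarith
    calc Real.log ((1024 * E ^ 3 * l : ℕ) : ℝ)
        ≤ Real.log (((4 * (E ^ 2 * l) : ℕ) : ℝ) ^ 2) := by
          apply Real.log_le_log _ h1
          push_cast; positivity
      _ = 2 * Real.log ((4 * (E ^ 2 * l) : ℕ) : ℝ) := by rw [Real.log_pow]; norm_num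
      _ ≤ 2 * l := by linarith
  have hlogX3 : Real.log ((256 * E ^ 2 : ℕ) : ℝ) ≤ 4 * y := by
    have h1 : ((256 * E ^ 2 : ℕ) : ℝ) ≤ (E : ℝ) ^ 4 := by
      push_cast
      have : (E : ℝ) ^ 4 = E ^ 2 * E ^ 2 := by ring
      rw [this]
      apply mul_le_mul_of_nonneg_right _ (by positivity)
      nlinarith
    calc Real.log ((256 * E ^ 2 : ℕ) : ℝ) ≤ Real.log ((E : ℝ) ^ 4) := by
          apply Real.log_le_log _ h1
          push_cast; positivity
      _ = 4 * y := by rw [Real.log_pow]; norm_num [hy]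
  -- cardinalities
  have c1 : E ^ 2 ≤ (pr4 (4 * (E ^ 2 * l))).card := by
    have h1 : ((4 * (E ^ 2 * l) : ℕ) : ℝ) ≤ 4 * l * (pr4 (4 * (E ^ 2 * l))).card := by
      refine q1.trans ?_
      apply mul_le_mul_of_nonneg_right _ (by positivity)
      linarith
    push_cast at h1
    have h2 : (4 * (l : ℝ)) * (E : ℝ) ^ 2 ≤ (4 * l) * (pr4 (4 * (E ^ 2 * l))).card := by
      linarith
    have h3 := le_of_mul_le_mul_left h2 (by positivity)
    exact_mod_cast h3
  have c2 : 128 * (E : ℝ) ^ 3 ≤ (pr4 (1024 * E ^ 3 * l)).card := by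
    have h1 : ((1024 * E ^ 3 * l : ℕ) : ℝ) ≤ 4 * (2 * l) * (pr4 (1024 * E ^ 3 * l)).card := by
      refine q2.trans ?_
      apply mul_le_mul_of_nonneg_right _ (by positivity)
      linarith
    push_cast at h1
    have h2 : (8 * (l : ℝ)) * (128 * (E : ℝ) ^ 3) ≤ (8 * l) * (pr4 (1024 * E ^ 3 * l)).card := by
      linarith
    exact le_of_mul_le_mul_left h2 (by positivity)
  have c3 : (E : ℝ) ≤ 4 * y * (pr4 E).card := q0
  have c4 : 16 * (E : ℝ) ^ 2 ≤ y * (pr4 (256 * E ^ 2)).card := by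
    have h1 : ((256 * E ^ 2 : ℕ) : ℝ) ≤ 4 * (4 * y) * (pr4 (256 * E ^ 2)).card := by
      refine q3.trans ?_
      apply mul_le_mul_of_nonneg_right _ (by positivity)
      linarith
    push_cast at h1
    linarith
  have hy0 : 0 < y := by linarith
  refine ⟨1024 * E ^ 4 * l + 1, by omega, ?_, ?_⟩
  · push_cast
    have h1 : (1024 : ℝ) * E ^ 4 * l ≤ 1024 * E ^ 4 * (4 * y + 1) :=
      mul_le_mul_of_nonneg_left hl2 (by positivity)
    have h2 : (1 : ℝ) ≤ E ^ 4 := one_le_pow₀ (by linarith)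
    have h3 : (E : ℝ) ^ 4 * 64 ≤ E ^ 4 * y := mul_le_mul_of_nonneg_left hlogE (by positivity)
    nlinarith
  · apply drawn_of_param (by omega) hl256 c1 hn
    · -- first class
      have h1 : (E : ℝ) / 8 ≤ ((E / 4 - 1 : ℕ) : ℝ) := by
        have : E ≤ 4 * (E / 4 - 1) + 7 := by omega
        have h2 : (E : ℝ) ≤ 4 * ((E / 4 - 1 : ℕ) : ℝ) + 7 := by exact_mod_cast this
        linarith
      have h2 : (n : ℝ) ≤ ((pr4 (1024 * E ^ 3 * l)).card * ((pr4 E).card * (E / 4 - 1)) : ℕ) := by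
        push_cast
        have h3 : (n : ℝ) * y ≤ y * (((pr4 (1024 * E ^ 3 * l)).card : ℝ) *
            ((pr4 E).card * ((E / 4 - 1 : ℕ) : ℝ))) := by
          calc (n : ℝ) * y ≤ 4 * (E : ℝ) ^ 5 := hnE
            _ = (128 * (E : ℝ) ^ 3) * ((E / 4) * (E / 8)) := by ring
            _ ≤ ((pr4 (1024 * E ^ 3 * l)).card : ℝ) *
                ((y * (pr4 E).card) * ((E / 4 - 1 : ℕ) : ℝ)) := by
                gcongr
                linarith
            _ = _ := by ring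
        have h4 : y * (n : ℝ) ≤ y * (((pr4 (1024 * E ^ 3 * l)).card : ℝ) *
            ((pr4 E).card * ((E / 4 - 1 : ℕ) : ℝ))) := by linarith
        exact le_of_mul_le_mul_left h4 hy0
      exact_mod_cast h2
    · have h2 : (n : ℝ) ≤ ((pr4 (256 * E ^ 2)).card * (12 * E ^ 3) : ℕ) := by
        push_cast
        have h4 : y * (n : ℝ) ≤ y * (((pr4 (256 * E ^ 2)).card : ℝ) * (12 * (E : ℝ) ^ 3)) := by
          calc y * (n : ℝ) = n * y := by ring
            _ ≤ 4 * (E : ℝ) ^ 5 := hnE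
            _ ≤ (16 * (E : ℝ) ^ 2) * (12 * (E : ℝ) ^ 3) := by
                have : (0 : ℝ) ≤ (E : ℝ) ^ 5 := by positivity
                nlinarith
            _ ≤ (y * (pr4 (256 * E ^ 2)).card) * (12 * (E : ℝ) ^ 3) :=
                mul_le_mul_of_nonneg_right c4 (by positivity)
            _ = _ := by ring
        exact le_of_mul_le_mul_left h4 hy0
      exact_mod_cast h2

/-- **The bound for large `n`.** -/
theorem exists_drawing : ∀ᶠ n : ℕ in atTop, ∃ m : ℕ, 1 ≤ m ∧ CanBeDrawn (Knn n) m m m ∧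
    (m : ℝ) ≤ (n : ℝ) ^ (4 / 5 : ℝ) * (Real.log n) ^ (2 : ℕ) := by
  have hcast : Tendsto (fun n : ℕ => (n : ℝ)) atTop atTop := tendsto_natCast_atTop_atTop
  have hlog : Tendsto (fun n : ℕ => Real.log (n : ℝ)) atTop atTop :=
    Real.tendsto_log_atTop.comp hcast
  set EE : ℕ → ℕ := fun n => ⌈((n : ℝ) * Real.log n) ^ (1 / 5 : ℝ)⌉₊ with hEE
  have hT : Tendsto (fun n : ℕ => (n : ℝ) * Real.log n) atTop atTop :=
    hcast.atTop_mul_atTop₀ hlog
  have hEt : Tendsto EE atTop atTop :=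
    tendsto_nat_ceil_atTop.comp ((tendsto_rpow_atTop (by norm_num)).comp hT)
  have hsm : ∀ᶠ x : ℝ in atTop, Real.log x ≤ x := by
    filter_upwards [eventually_gt_atTop (0 : ℝ)] with x hx
    have := Real.log_le_sub_one_of_pos hx
    linarith
  have h80 : ∀ᶠ y : ℝ in atTop, 80000 ≤ y ^ (1 / 5 : ℝ) :=
    (tendsto_rpow_atTop (by norm_num)).eventually_ge_atTop 80000
  have hxlog : ∀ᶠ n : ℕ in atTop, 1 ≤ ((n : ℝ) * Real.log n) ^ (1 / 5 : ℝ) :=
    ((tendsto_rpow_atTop (by norm_num)).comp hT).eventually_ge_atTop 1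
  filter_upwards [hEt.eventually ev_drawn, hcast.eventually hsm, hlog.eventually h80, hxlog,
    eventually_ge_atTop 1000, hlog.eventually_ge_atTop 1] with n hn h1 h2 h3 h4 h5
  set y := Real.log (n : ℝ) with hy
  set x := ((n : ℝ) * y) ^ (1 / 5 : ℝ) with hx
  have hn0 : (1000 : ℝ) ≤ n := by exact_mod_cast h4
  have hny : (0 : ℝ) < n * y := by nlinarith
  have hx5 : x ^ 5 = n * y := by
    rw [hx, ← Real.rpow_natCast, ← Real.rpow_mul hny.le]; norm_num
  have hE1 : x ≤ (EE n : ℝ) := Nat.le_ceil _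
  have hE2 : (EE n : ℝ) ≤ 2 * x := by
    have := (Nat.ceil_lt_add_one (show (0 : ℝ) ≤ x by linarith)).le
    have h6 : ((EE n : ℕ) : ℝ) = ((⌈x⌉₊ : ℕ) : ℝ) := rfl
    rw [h6]; linarith
  have hEn : (EE n : ℝ) ≤ n := by
    refine hE2.trans ?_
    have h6 : x ^ 5 ≤ (n : ℝ) ^ 2 := by rw [hx5, sq]; exact mul_le_mul_of_nonneg_left h1 (by linarith)
    by_contra hcon
    push Not at hcon
    have h7 : (n : ℝ) / 2 < x := by linarith
    have h8 : ((n : ℝ) / 2) ^ 5 < x ^ 5 := pow_lt_pow_left₀ h7 (by positivity) (by norm_num)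
    have h9 : ((n : ℝ) / 2) ^ 5 = (n : ℝ) ^ 2 * (n ^ 3 / 32) := by ring
    have h10 : (1 : ℝ) ≤ n ^ 3 / 32 := by
      have : (1000 : ℝ) ^ 3 ≤ n ^ 3 := pow_le_pow_left₀ (by norm_num) hn0 3
      rw [le_div_iff₀ (by norm_num)]; linarith
    have h11 : (0 : ℝ) < (n : ℝ) ^ 2 := by positivity
    nlinarith
  have hE0 : (1 : ℝ) ≤ EE n := h3.trans hE1
  have hlogE : Real.log (EE n) ≤ y := Real.log_le_log (by linarith) hEn
  have hlogE0 : 0 ≤ Real.log (EE n) := Real.log_nonneg hE0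
  obtain ⟨m, hm1, hm2, hm3⟩ := hn n (by omega) (by
    have h6 : (n : ℝ) * Real.log (EE n) ≤ n * y := mul_le_mul_of_nonneg_left hlogE (by linarith)
    have h7 : x ^ 5 ≤ (EE n : ℝ) ^ 5 := pow_le_pow_left₀ (by linarith) hE1 5
    rw [hx5] at h7
    have h8 : (0 : ℝ) ≤ (EE n : ℝ) ^ 5 := by positivity
    linarith)
  refine ⟨m, hm1, hm3, hm2.trans ?_⟩
  have h6 : (EE n : ℝ) ^ 4 ≤ 16 * x ^ 4 := by
    calc (EE n : ℝ) ^ 4 ≤ (2 * x) ^ 4 := pow_le_pow_left₀ (by linarith) hE2 4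
      _ = 16 * x ^ 4 := by ring
  have h7 : x ^ 4 = (n : ℝ) ^ (4 / 5 : ℝ) * y ^ (4 / 5 : ℝ) := by
    rw [hx, ← Real.rpow_natCast, ← Real.rpow_mul hny.le, Real.mul_rpow (by linarith) (by linarith)]
    norm_num
  have h8 : y ^ (4 / 5 : ℝ) * y ^ (1 / 5 : ℝ) = y := by
    rw [← Real.rpow_add (by linarith)]; norm_num
  have hA : (0 : ℝ) ≤ (n : ℝ) ^ (4 / 5 : ℝ) := by positivity
  have hB : (0 : ℝ) ≤ y ^ (4 / 5 : ℝ) := Real.rpow_nonneg (by linarith) _
  calc 5000 * (EE n : ℝ) ^ 4 * Real.log (EE n)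
      ≤ 5000 * (16 * x ^ 4) * y := by
        apply mul_le_mul _ hlogE hlogE0 (by positivity)
        linarith
    _ = (n : ℝ) ^ (4 / 5 : ℝ) * (y ^ (4 / 5 : ℝ) * 80000) * y := by rw [h7]; ring
    _ ≤ (n : ℝ) ^ (4 / 5 : ℝ) * (y ^ (4 / 5 : ℝ) * y ^ (1 / 5 : ℝ)) * y := by
        gcongr
    _ = (n : ℝ) ^ (4 / 5 : ℝ) * y ^ 2 := by rw [h8]; ring

end Pool.Agent.H88.KP
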