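import Mathlib

/-!
# Primes in `(X/4, X]`
-/

namespace Pool.Agent.H88.KP

open Finset Filter

/-- The primes in `(X/4, X]`. -/
def pr4 (X : ℕ) : Finset ℕ := (Ioc (X / 4) X).filter Nat.Prime

theorem mem_pr4 {X p : ℕ} : p ∈ pr4 X ↔ (X / 4 < p ∧ p ≤ X) ∧ p.Prime := by
  simp [pr4]

theorem theta_sub_le (X : ℕ) :
    Chebyshev.theta X - Chebyshev.theta ((X / 4 : ℕ) : ℝ) ≤ (pr4 X).card * Real.log X := by
  unfold Chebyshev.theta
  rw [Nat.floor_natCast, Nat.floor_natCast]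
  have hsplit : (Ioc 0 X).filter Nat.Prime =
      ((Ioc 0 (X / 4)).filter Nat.Prime) ∪ pr4 X := by
    ext p
    simp only [mem_union, mem_filter, mem_Ioc, mem_pr4]
    constructor
    · rintro ⟨⟨h1, h2⟩, h3⟩
      by_cases h : p ≤ X / 4
      · exact Or.inl ⟨⟨h1, h⟩, h3⟩
      · exact Or.inr ⟨⟨by omega, h2⟩, h3⟩
    · rintro (⟨⟨h1, h2⟩, h3⟩ | ⟨⟨h1, h2⟩, h3⟩)
      · exact ⟨⟨h1, by omega⟩, h3⟩
      · exact ⟨⟨by omega, h2⟩, h3⟩
  have hdisj : Disjoint ((Ioc 0 (X / 4)).filter Nat.Prime) (pr4 X) := by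
    rw [disjoint_left]
    intro p hp hq
    simp only [mem_filter, mem_Ioc] at hp
    rw [mem_pr4] at hq
    omega
  rw [hsplit, sum_union hdisj, add_sub_cancel_left]
  calc ∑ p ∈ pr4 X, Real.log p ≤ ∑ _p ∈ pr4 X, Real.log X := by
        apply sum_le_sum
        intro p hp
        rw [mem_pr4] at hp
        apply Real.log_le_log
        · exact_mod_cast hp.2.pos
        · exact_mod_cast hp.1.2
    _ = (pr4 X).card * Real.log X := by rw [sum_const, nsmul_eq_mul]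

theorem ev_pr4 : ∀ᶠ X : ℕ in atTop, (X : ℝ) ≤ 4 * Real.log X * (pr4 X).card := by
  have e1 : ∀ᶠ x : ℝ in atTop, Real.log x ≤ (1 / 1000) * x ^ (1 / 2 : ℝ) := by
    have h := (isLittleO_log_rpow_atTop (r := (1 / 2 : ℝ)) (by norm_num)).bound
      (c := 1 / 1000) (by norm_num)
    filter_upwards [h, eventually_ge_atTop (1 : ℝ)] with x hx hx1
    rw [Real.norm_eq_abs, Real.norm_eq_abs, abs_of_nonneg (Real.log_nonneg hx1),
      abs_of_nonneg (by positivity)] at hx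
    exact hx
  have e2 : ∀ᶠ x : ℝ in atTop, Real.log x ≤ (1 / 100) * x ^ (1 / 4 : ℝ) := by
    have h := (isLittleO_log_rpow_atTop (r := (1 / 4 : ℝ)) (by norm_num)).bound
      (c := 1 / 100) (by norm_num)
    filter_upwards [h, eventually_ge_atTop (1 : ℝ)] with x hx hx1
    rw [Real.norm_eq_abs, Real.norm_eq_abs, abs_of_nonneg (Real.log_nonneg hx1),
      abs_of_nonneg (by positivity)] at hx
    exact hx
  have hcast : Tendsto (fun P : ℕ => (P : ℝ)) atTop atTop := tendsto_natCast_atTop_atTop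
  filter_upwards [hcast.eventually e2, eventually_ge_atTop 100] with X h1 hX
  have hX1 : (100 : ℝ) ≤ X := by exact_mod_cast hX
  have hX0 : (0 : ℝ) < X := by linarith
  have h2 := theta_sub_le X
  have h3 := Chebyshev.theta_ge X
  have h4 : Chebyshev.theta ((X / 4 : ℕ) : ℝ) ≤ Real.log 4 * ((X / 4 : ℕ) : ℝ) :=
    Chebyshev.theta_le_log4_mul_x (by positivity)
  have h5 : ((X / 4 : ℕ) : ℝ) ≤ X / 4 := Nat.cast_div_le
  have h6 : Real.log 4 = 2 * Real.log 2 := by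
    rw [show (4 : ℝ) = 2 ^ 2 by norm_num, Real.log_pow]; norm_num
  have h7 : (0.6931471803 : ℝ) < Real.log 2 := Real.log_two_gt_d9
  have h8 : Real.log 2 < 0.6931471808 := Real.log_two_lt_d9
  have hsq : Real.sqrt X = (X : ℝ) ^ (1 / 2 : ℝ) := Real.sqrt_eq_rpow X
  have hlog0 : 0 ≤ Real.log X := Real.log_nonneg (by linarith)
  have h9 : 2 * Real.sqrt X * Real.log X ≤ X / 50 := by
    have hA : (X : ℝ) ^ (1 / 2 : ℝ) * (X : ℝ) ^ (1 / 4 : ℝ) ≤ X := by
      rw [← Real.rpow_add hX0]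
      calc (X : ℝ) ^ ((1 / 2 : ℝ) + 1 / 4) ≤ (X : ℝ) ^ (1 : ℝ) :=
            Real.rpow_le_rpow_of_exponent_le (by linarith) (by norm_num)
        _ = X := Real.rpow_one _
    rw [hsq]
    have hB : (0 : ℝ) ≤ (X : ℝ) ^ (1 / 2 : ℝ) := by positivity
    calc 2 * (X : ℝ) ^ (1 / 2 : ℝ) * Real.log X
        ≤ 2 * (X : ℝ) ^ (1 / 2 : ℝ) * ((1 / 100) * (X : ℝ) ^ (1 / 4 : ℝ)) :=
          mul_le_mul_of_nonneg_left h1 (by positivity)
      _ = (1 / 50) * ((X : ℝ) ^ (1 / 2 : ℝ) * (X : ℝ) ^ (1 / 4 : ℝ)) := by ring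
      _ ≤ (1 / 50) * X := by linarith
      _ = X / 50 := by ring
  have h10 : Real.log (X + 1) ≤ X / 50 := by
    have hA : Real.log ((X : ℝ) + 1) ≤ Real.log (2 * X) :=
      Real.log_le_log (by linarith) (by linarith)
    rw [Real.log_mul (by norm_num) hX0.ne'] at hA
    have hB : Real.log X ≤ (1 / 100) * X := by
      calc Real.log X ≤ (1 / 100) * (X : ℝ) ^ (1 / 4 : ℝ) := h1
        _ ≤ (1 / 100) * (X : ℝ) ^ (1 : ℝ) := by
            have := Real.rpow_le_rpow_of_exponent_le (x := (X : ℝ)) (by linarith)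
              (show (1 / 4 : ℝ) ≤ 1 by norm_num)
            linarith
        _ = (1 / 100) * X := by rw [Real.rpow_one]
    have hC : (0.6931471808 : ℝ) ≤ X / 100 := by linarith
    linarith
  have h11 : (X : ℝ) / 4 ≤ (pr4 X).card * Real.log X := by
    have hA : Real.log 4 * ((X / 4 : ℕ) : ℝ) ≤ 2 * Real.log 2 * (X / 4) := by
      rw [h6]
      exact mul_le_mul_of_nonneg_left h5 (by linarith)
    have hB : (X : ℝ) * Real.log 2 ≥ X * 0.6931471803 :=
      mul_le_mul_of_nonneg_left h7.le hX0.le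
    nlinarith
  linarith

end Pool.Agent.H88.KP
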