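import Pool.Agent.H88.KP.Geo

/-!
# The arithmetic core

First class: points `t (e₁, e₂)` with `t` prime and `(e₁, e₂)` small. Second class: points
`p (x, y, z)` with `p` prime, depending on `L y - x` only. No two points of the first class are
coplanar with two points of the second class.
-/

namespace Pool.Agent.H88.KP

theorem caseOne {p p' z z' t t' e₁ e₂ e₁' e₂' x y x' y' : ℤ} (hp : Prime p) (h1 : ¬ p ∣ p')
    (h2 : ¬ p ∣ z') (h3 : ¬ p ∣ t) (h4 : ¬ p ∣ t') (h5 : ¬ p ∣ e₁ * e₂' - e₁' * e₂) :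
    cop (t * e₁) (t * e₂) (t' * e₁') (t' * e₂') (p * x) (p * y) (p * z) (p' * x') (p' * y')
      (p' * z') ≠ 0 := by
  intro h
  have hd : p ∣ p' * (z' * (t * (t' * (e₁ * e₂' - e₁' * e₂)))) := by
    refine ⟨p' * (z' * x - z * x') * (t' * e₂' - t * e₂)
      - p' * (z' * y - z * y') * (t' * e₁' - t * e₁) + z * t * t' * (e₁ * e₂' - e₁' * e₂), ?_⟩
    unfold cop at h
    linear_combination (-1 : ℤ) * h
  rcases hp.dvd_or_dvd hd with h' | h'
  · exact h1 h'
  rcases hp.dvd_or_dvd h' with h' | h'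
  · exact h2 h'
  rcases hp.dvd_or_dvd h' with h' | h'
  · exact h3 h'
  rcases hp.dvd_or_dvd h' with h' | h'
  · exact h4 h'
  · exact h5 h'

theorem caseTwo {p z z' t t' e₁ e₂ e₁' e₂' x y x' y' : ℤ} (hp : Prime p)
    (h2 : ¬ p ∣ z' - z) (h3 : ¬ p ∣ t) (h4 : ¬ p ∣ t') (h5 : ¬ p ∣ e₁ * e₂' - e₁' * e₂) :
    cop (t * e₁) (t * e₂) (t' * e₁') (t' * e₂') (p * x) (p * y) (p * z) (p * x') (p * y')
      (p * z') ≠ 0 := by
  intro h
  have hd : p ∣ (z' - z) * (t * (t' * (e₁ * e₂' - e₁' * e₂))) := by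
    refine ⟨(z' * x - z * x') * (t' * e₂' - t * e₂)
      - (z' * y - z * y') * (t' * e₁' - t * e₁), ?_⟩
    have h0 : p * ((z' - z) * (t * (t' * (e₁ * e₂' - e₁' * e₂)))
        - p * ((z' * x - z * x') * (t' * e₂' - t * e₂)
      - (z' * y - z * y') * (t' * e₁' - t * e₁))) = 0 := by
      unfold cop at h
      linear_combination (-1 : ℤ) * h
    have := (mul_eq_zero.mp h0).resolve_left hp.ne_zero
    linarith
  rcases hp.dvd_or_dvd hd with h' | h'
  · exact h2 h'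
  rcases hp.dvd_or_dvd h' with h' | h'
  · exact h3 h'
  rcases hp.dvd_or_dvd h' with h' | h'
  · exact h4 h'
  · exact h5 h'

theorem caseThree {L p z t t' e₁ e₂ e₁' e₂' x y x' y' : ℤ} (hp : p ≠ 0) (hz : z ≠ 0)
    (hy : y ≠ y') (hx : L * y - x = L * y' - x')
    (hκ : t * (L * e₂ - e₁) ≠ t' * (L * e₂' - e₁')) :
    cop (t * e₁) (t * e₂) (t' * e₁') (t' * e₂') (p * x) (p * y) (p * z) (p * x') (p * y')
      (p * z) ≠ 0 := by
  have h0 : cop (t * e₁) (t * e₂) (t' * e₁') (t' * e₂') (p * x) (p * y) (p * z) (p * x')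
      (p * y') (p * z) = p * (p * (z * ((y - y') * (t' * (L * e₂' - e₁')
        - t * (L * e₂ - e₁))))) := by
    unfold cop
    linear_combination (-(p * p * z * (t' * e₂' - t * e₂))) * hx
  rw [h0]
  have h1 : y - y' ≠ 0 := sub_ne_zero.mpr hy
  have h2 : t' * (L * e₂' - e₁') - t * (L * e₂ - e₁) ≠ 0 := sub_ne_zero.mpr hκ.symm
  exact mul_ne_zero hp (mul_ne_zero hp (mul_ne_zero hz (mul_ne_zero h1 h2)))

theorem caseFour {p p' z z' t t' e₁ e₂ x y x' y' : ℤ} (hp : p ≠ 0) (hp' : p' ≠ 0)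
    (ht : t ≠ t')
    (h : z' * (x * e₂ - y * e₁) ≠ z * (x' * e₂ - y' * e₁)) :
    cop (t * e₁) (t * e₂) (t' * e₁) (t' * e₂) (p * x) (p * y) (p * z) (p' * x') (p' * y')
      (p' * z') ≠ 0 := by
  have h0 : cop (t * e₁) (t * e₂) (t' * e₁) (t' * e₂) (p * x) (p * y) (p * z) (p' * x')
      (p' * y') (p' * z') = (t' - t) * (p * (p' * (z' * (x * e₂ - y * e₁)
        - z * (x' * e₂ - y' * e₁)))) := by
    unfold cop
    ring
  rw [h0]
  exact mul_ne_zero (sub_ne_zero.mpr ht.symm) (mul_ne_zero hp (mul_ne_zero hp'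
    (sub_ne_zero.mpr h)))

/-- Conditions on the data `(t, e₁, e₂)` of a point of the first class. -/
structure AOk (E N D : ℕ) (t e₁ e₂ : ℕ) : Prop where
  tp : t.Prime
  tD : 4 * D < t
  tE : E ^ 2 < t
  e1 : 1 ≤ e₁
  e12 : e₁ < e₂
  e2 : e₂ ≤ E
  e2p : e₂.Prime
  big : E < 4 * e₂
  nd : ¬ (N : ℤ) ∣ (E : ℤ) * e₂ - e₁

/-- Conditions on the data `(z, x, y)` of a point of the second class. -/
structure BOk (E N V : ℕ) (z x y : ℕ) : Prop where
  zp : z.Prime
  zV : z ≤ V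
  x1 : 1 ≤ x
  xV : x ≤ V
  y1 : V < 2 * y
  yV : y ≤ V
  dv : (N : ℤ) ∣ (E : ℤ) * y - x
  nz : ∀ e₁ e₂ : ℕ, 1 ≤ e₁ → e₁ < e₂ → e₂ ≤ E → e₂.Prime → E < 4 * e₂ →
    ¬ (N : ℤ) ∣ (E : ℤ) * e₂ - e₁ → ¬ (z : ℤ) ∣ (x : ℤ) * e₂ - y * e₁

theorem kappa_inj {E N D t e₁ e₂ t' e₁' e₂' : ℕ} (h : AOk E N D t e₁ e₂)
    (h' : AOk E N D t' e₁' e₂')
    (hk : (t : ℤ) * ((E : ℤ) * e₂ - e₁) = t' * ((E : ℤ) * e₂' - e₁')) :
    t = t' ∧ e₁ = e₁' ∧ e₂ = e₂' := by
  have hpos : ∀ {t e₁ e₂ : ℕ}, AOk E N D t e₁ e₂ →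
      0 < (E : ℤ) * e₂ - e₁ ∧ (E : ℤ) * e₂ - e₁ ≤ (E : ℤ) ^ 2 := by
    intro t e₁ e₂ h
    have h1 := h.e1
    have h2 := h.e12
    have h3 := h.e2
    zify at h1 h2 h3
    constructor
    · nlinarith
    · nlinarith
  obtain ⟨k1, k2⟩ := hpos h
  obtain ⟨k1', k2'⟩ := hpos h'
  have htE := h.tE
  have htE' := h'.tE
  have hp := Nat.prime_iff_prime_int.mp h.tp
  zify at htE htE'
  have hdiv : (t : ℤ) ∣ t' * ((E : ℤ) * e₂' - e₁') := ⟨_, hk.symm⟩
  have ht : (t : ℤ) ∣ t' := by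
    rcases hp.dvd_or_dvd hdiv with h1 | h1
    · exact h1
    · exfalso
      have := Int.le_of_dvd k1' h1
      linarith
  have htt : t = t' := by
    have h1 : t ∣ t' := by exact_mod_cast ht
    exact (Nat.prime_dvd_prime_iff_eq h.tp h'.tp).mp h1
  subst htt
  have hκ : (E : ℤ) * e₂ - e₁ = (E : ℤ) * e₂' - e₁' := by
    have h0 : (t : ℤ) ≠ 0 := hp.ne_zero
    exact mul_left_cancel₀ h0 hk
  have a1 := h.e12
  have a2 := h.e2
  have a3 := h'.e12
  have a4 := h'.e2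
  have a5 := h.e1
  have a6 := h'.e1
  zify at a1 a2 a3 a4 a5 a6
  have h22 : (e₂ : ℤ) = e₂' := by
    rcases lt_trichotomy (e₂ : ℤ) e₂' with hlt | heq | hgt
    · exfalso
      have : (E : ℤ) * (e₂' - e₂) = e₁' - e₁ := by linarith
      have h3 : (1 : ℤ) ≤ e₂' - e₂ := by linarith
      nlinarith
    · exact heq
    · exfalso
      have : (E : ℤ) * (e₂ - e₂') = e₁ - e₁' := by linarith
      have h3 : (1 : ℤ) ≤ e₂ - e₂' := by linarith
      nlinarith
  have h11 : (e₁ : ℤ) = e₁' := by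
    rw [h22] at hκ
    linarith
  exact ⟨rfl, by exact_mod_cast h11, by exact_mod_cast h22⟩


theorem det_ne {E N D t e₁ e₂ t' e₁' e₂' : ℕ} (h : AOk E N D t e₁ e₂)
    (h' : AOk E N D t' e₁' e₂') (hne : ¬ (e₁ = e₁' ∧ e₂ = e₂')) :
    (e₁ : ℤ) * e₂' - e₁' * e₂ ≠ 0 := by
  intro h0
  have h1 : e₁ * e₂' = e₁' * e₂ := by
    have : (e₁ : ℤ) * e₂' = e₁' * e₂ := by linarith
    exact_mod_cast this
  have hc : ¬ e₂ ∣ e₁ := fun hd => by
    have := Nat.le_of_dvd h.e1 hd
    have := h.e12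
    omega
  have h2 : e₂ ∣ e₁ * e₂' := ⟨e₁', by rw [h1]; ring⟩
  have h3 : e₂ ∣ e₂' := (h.e2p.dvd_mul.mp h2).resolve_left hc
  have h4 : e₂ = e₂' := (Nat.prime_dvd_prime_iff_eq h.e2p h'.e2p).mp h3
  subst h4
  have h5 : e₁ = e₁' := Nat.eq_of_mul_eq_mul_right h.e2p.pos h1
  exact hne ⟨h5, rfl⟩

theorem det_abs {E N D t e₁ e₂ t' e₁' e₂' : ℕ} (h : AOk E N D t e₁ e₂)
    (h' : AOk E N D t' e₁' e₂') :
    |(e₁ : ℤ) * e₂' - e₁' * e₂| < (E : ℤ) ^ 2 := by
  have a1 := h.e12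
  have a2 := h.e2
  have a3 := h'.e12
  have a4 := h'.e2
  have a5 := h.e1
  have a6 := h'.e1
  zify at a1 a2 a3 a4 a5 a6
  rw [abs_lt]
  constructor
  · nlinarith
  · nlinarith

theorem not_dvd_of_abs {p : ℕ} {d : ℤ} {B : ℤ} (h0 : d ≠ 0) (h1 : |d| < B) (h2 : B ≤ p) :
    ¬ (p : ℤ) ∣ d := by
  intro h
  have h3 : (p : ℤ) ∣ |d| := (dvd_abs _ _).mpr h
  have h4 := Int.le_of_dvd (abs_pos.mpr h0) h3
  linarith

/-- **The core.** -/
theorem core {E N V D : ℕ} (hN : N.Prime) (hED : E ^ 2 ≤ D) (hVD : V ≤ D)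
    (hNV : 2 * V ≤ N * E)
    {t e₁ e₂ t' e₁' e₂' : ℕ} (ha : AOk E N D t e₁ e₂) (ha' : AOk E N D t' e₁' e₂')
    {z x y z' x' y' : ℕ} (hb : BOk E N V z x y) (hb' : BOk E N V z' x' y')
    {p p' : ℕ} (hp : p.Prime) (hp' : p'.Prime) (hpD : D < p) (hpD' : D < p')
    (hp4 : p ≤ 4 * D) (hp4' : p' ≤ 4 * D)
    (hpp : p = p' → (E : ℤ) * y - x = (E : ℤ) * y' - x')
    (hpp' : (E : ℤ) * y - x = (E : ℤ) * y' - x' → p = p')
    (hane : ¬ (t = t' ∧ e₁ = e₁' ∧ e₂ = e₂')) (hbne : ¬ (z = z' ∧ x = x' ∧ y = y')) :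
    cop ((t : ℤ) * e₁) (t * e₂) (t' * e₁') (t' * e₂') (p * x) (p * y) (p * z) (p' * x')
      (p' * y') (p' * z') ≠ 0 := by
  have ip := Nat.prime_iff_prime_int.mp hp
  have ip' := Nat.prime_iff_prime_int.mp hp'
  have hpt : ∀ {t : ℕ}, t.Prime → 4 * D < t → ∀ {p : ℕ}, p.Prime → p ≤ 4 * D →
      ¬ (p : ℤ) ∣ t := by
    intro t ht h4 p hp h5 hd
    have h1 : p ∣ t := by exact_mod_cast hd
    have := (Nat.prime_dvd_prime_iff_eq hp ht).mp h1
    omega
  have hpz : ∀ {z : ℕ}, z.Prime → z ≤ V → ∀ {p : ℕ}, D < p → ¬ (p : ℤ) ∣ z := by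
    intro z hz h4 p h5 hd
    have h1 : p ∣ z := by exact_mod_cast hd
    have := Nat.le_of_dvd hz.pos h1
    omega
  by_cases hzz : z = z'
  · subst hzz
    by_cases hpe : p = p'
    · -- same prime and same height
      subst hpe
      have hk := hpp rfl
      have hy : (y : ℤ) ≠ y' := by
        intro hy
        apply hbne
        have hx : (x : ℤ) = x' := by rw [hy] at hk; linarith
        exact ⟨rfl, by exact_mod_cast hx, by exact_mod_cast hy⟩
      refine caseThree (L := E) ip.ne_zero ?_ hy hk ?_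
      · exact_mod_cast hb.zp.ne_zero
      · intro hk
        exact hane (kappa_inj ha ha' hk)
    · by_cases hee : e₁ = e₁' ∧ e₂ = e₂'
      · obtain ⟨rfl, rfl⟩ := hee
        have htt : t ≠ t' := fun h => hane ⟨h, rfl, rfl⟩
        refine caseFour ip.ne_zero ip'.ne_zero (by exact_mod_cast htt) ?_
        intro h0
        have hz0 : (z : ℤ) ≠ 0 := by exact_mod_cast hb.zp.ne_zero
        have h1 := mul_left_cancel₀ hz0 h0
        -- `(x - x') e₂ = (y - y') e₁`
        have h2 : ((x : ℤ) - x') * e₂ = (y - y') * e₁ := by linarith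
        have he2 : (e₂ : ℤ) ∣ ((y : ℤ) - y') := by
          have h3 : (e₂ : ℤ) ∣ ((y : ℤ) - y') * e₁ := ⟨(x : ℤ) - x', by rw [← h2]; ring⟩
          have ie := Nat.prime_iff_prime_int.mp ha.e2p
          rcases ie.dvd_or_dvd h3 with h4 | h4
          · exact h4
          · exfalso
            have h5 : e₂ ∣ e₁ := by exact_mod_cast h4
            have := Nat.le_of_dvd ha.e1 h5
            have := ha.e12
            omega
        obtain ⟨k, hk⟩ := he2
        have he0 : (e₂ : ℤ) ≠ 0 := by exact_mod_cast ha.e2p.ne_zero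
        have hx : (x : ℤ) - x' = k * e₁ := by
          apply mul_right_cancel₀ he0
          rw [h2, hk]; ring
        have hNk : (N : ℤ) ∣ k := by
          have h3 : (N : ℤ) ∣ k * ((E : ℤ) * e₂ - e₁) := by
            have h4 := dvd_sub hb.dv hb'.dv
            have h5 : (E : ℤ) * y - x - ((E : ℤ) * y' - x') = k * ((E : ℤ) * e₂ - e₁) := by
              linear_combination (E : ℤ) * hk - hx
            rwa [h5] at h4
          have iN := Nat.prime_iff_prime_int.mp hN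
          exact (iN.dvd_or_dvd h3).resolve_right ha.nd
        have hk0 : k = 0 := by
          by_contra hk0
          have h3 : (N : ℤ) ≤ |k| := Int.le_of_dvd (abs_pos.mpr hk0) ((dvd_abs _ _).mpr hNk)
          have h4 : |(y : ℤ) - y'| = e₂ * |k| := by
            rw [hk, abs_mul, abs_of_nonneg (by positivity)]
          have h5 : 2 * |(y : ℤ) - y'| < V := by
            have b1 := hb.y1
            have b2 := hb.yV
            have b3 := hb'.y1
            have b4 := hb'.yV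
            zify at b1 b2 b3 b4
            rcases abs_cases ((y : ℤ) - y') with ⟨h6, _⟩ | ⟨h6, _⟩ <;> rw [h6] <;> linarith
          have b5 := ha.big
          have hN0 : (0 : ℤ) < N := by exact_mod_cast hN.pos
          zify at hNV b5
          have h6 : (N : ℤ) * E < N * (4 * e₂) := by
            exact mul_lt_mul_of_pos_left b5 hN0
          have h7 : (e₂ : ℤ) * N ≤ e₂ * |k| := by
            apply mul_le_mul_of_nonneg_left h3 (by positivity)
          nlinarith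
        apply hpe
        apply hpp'
        rw [hk0] at hx hk
        linear_combination (E : ℤ) * hk - hx
      · -- different directions, different primes
        refine caseOne ip ?_ (hpz hb.zp hb.zV hpD) (hpt ha.tp ha.tD hp hp4)
          (hpt ha'.tp ha'.tD hp hp4) ?_
        · intro hd
          have h1 : p ∣ p' := by exact_mod_cast hd
          exact hpe ((Nat.prime_dvd_prime_iff_eq hp hp').mp h1)
        · apply not_dvd_of_abs (det_ne ha ha' hee) (det_abs ha ha')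
          have : E ^ 2 ≤ p := by omega
          exact_mod_cast this
  · by_cases hee : e₁ = e₁' ∧ e₂ = e₂'
    · obtain ⟨rfl, rfl⟩ := hee
      have htt : t ≠ t' := fun h => hane ⟨h, rfl, rfl⟩
      refine caseFour ip.ne_zero ip'.ne_zero (by exact_mod_cast htt) ?_
      intro h0
      have iz := Nat.prime_iff_prime_int.mp hb.zp
      have h1 : (z : ℤ) ∣ z' * ((x : ℤ) * e₂ - y * e₁) := ⟨_, h0⟩
      rcases iz.dvd_or_dvd h1 with h2 | h2
      · have h3 : z ∣ z' := by exact_mod_cast h2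
        exact hzz ((Nat.prime_dvd_prime_iff_eq hb.zp hb'.zp).mp h3)
      · exact hb.nz e₁ e₂ ha.e1 ha.e12 ha.e2 ha.e2p ha.big ha.nd h2
    · have h5 : ¬ (p : ℤ) ∣ (e₁ : ℤ) * e₂' - e₁' * e₂ := by
        apply not_dvd_of_abs (det_ne ha ha' hee) (det_abs ha ha')
        have : E ^ 2 ≤ p := by omega
        exact_mod_cast this
      by_cases hpe : p = p'
      · subst hpe
        refine caseTwo ip ?_ (hpt ha.tp ha.tD hp hp4) (hpt ha'.tp ha'.tD hp hp4) h5
        have h6 : (z' : ℤ) - z ≠ 0 := by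
          intro h7
          apply hzz
          have : (z : ℤ) = z' := by linarith
          exact_mod_cast this
        apply not_dvd_of_abs (B := V + 1) h6
        · have b1 := hb.zV
          have b2 := hb'.zV
          zify at b1 b2
          rcases abs_cases ((z' : ℤ) - z) with ⟨h7, _⟩ | ⟨h7, _⟩ <;> rw [h7]
          · have : (0 : ℤ) ≤ z := by positivity
            linarith
          · have : (0 : ℤ) ≤ z' := by positivity
            linarith
        · have : V + 1 ≤ p := by omega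
          exact_mod_cast this
      · refine caseOne ip ?_ (hpz hb'.zp hb'.zV hpD) (hpt ha.tp ha.tD hp hp4)
          (hpt ha'.tp ha'.tD hp hp4) h5
        intro hd
        have h1 : p ∣ p' := by exact_mod_cast hd
        exact hpe ((Nat.prime_dvd_prime_iff_eq hp hp').mp h1)

end Pool.Agent.H88.KP
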