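import Pool.Agent.H88.KP.Core
import Pool.Agent.H88.KP.Cheb

/-!
# The finite construction
-/

namespace Pool.Agent.H88.KP

open Finset Pool.Agent.H49.KNN

/-- Two points of the window whose difference is parallel to `(e₁, e₂)` are equal. -/
theorem par_eq {E N V : ℕ} (hN : N.Prime) (hNV : 2 * V ≤ N * E) {e₁ e₂ : ℕ}
    (he1 : 1 ≤ e₁) (he12 : e₁ < e₂) (he2p : e₂.Prime) (big : E < 4 * e₂)
    (nd : ¬ (N : ℤ) ∣ (E : ℤ) * e₂ - e₁) {x y x' y' : ℕ}
    (y1 : V < 2 * y) (yV : y ≤ V) (y1' : V < 2 * y') (yV' : y' ≤ V)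
    (dv : (N : ℤ) ∣ (E : ℤ) * y - x) (dv' : (N : ℤ) ∣ (E : ℤ) * y' - x')
    (h2 : ((x : ℤ) - x') * e₂ = (y - y') * e₁) : x = x' ∧ y = y' := by
  have he2 : (e₂ : ℤ) ∣ ((y : ℤ) - y') := by
    have h3 : (e₂ : ℤ) ∣ ((y : ℤ) - y') * e₁ := ⟨(x : ℤ) - x', by rw [← h2]; ring⟩
    have ie := Nat.prime_iff_prime_int.mp he2p
    rcases ie.dvd_or_dvd h3 with h4 | h4
    · exact h4
    · exfalso
      have h5 : e₂ ∣ e₁ := by exact_mod_cast h4
      have := Nat.le_of_dvd he1 h5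
      omega
  obtain ⟨k, hk⟩ := he2
  have he0 : (e₂ : ℤ) ≠ 0 := by exact_mod_cast he2p.ne_zero
  have hx : (x : ℤ) - x' = k * e₁ := by
    apply mul_right_cancel₀ he0
    rw [h2, hk]; ring
  have hNk : (N : ℤ) ∣ k := by
    have h3 : (N : ℤ) ∣ k * ((E : ℤ) * e₂ - e₁) := by
      have h4 := dvd_sub dv dv'
      have h5 : (E : ℤ) * y - x - ((E : ℤ) * y' - x') = k * ((E : ℤ) * e₂ - e₁) := by
        linear_combination (E : ℤ) * hk - hx
      rwa [h5] at h4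
    have iN := Nat.prime_iff_prime_int.mp hN
    exact (iN.dvd_or_dvd h3).resolve_right nd
  have hk0 : k = 0 := by
    by_contra hk0
    have h3 : (N : ℤ) ≤ |k| := Int.le_of_dvd (abs_pos.mpr hk0) ((dvd_abs _ _).mpr hNk)
    have h4 : |(y : ℤ) - y'| = e₂ * |k| := by
      rw [hk, abs_mul, abs_of_nonneg (by positivity)]
    have h5 : 2 * |(y : ℤ) - y'| < V := by
      zify at y1 yV y1' yV'
      rcases abs_cases ((y : ℤ) - y') with ⟨h6, _⟩ | ⟨h6, _⟩ <;> rw [h6] <;> linarith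
    have hN0 : (0 : ℤ) < N := by exact_mod_cast hN.pos
    zify at hNV big
    have h6 : (N : ℤ) * E < N * (4 * e₂) := mul_lt_mul_of_pos_left big hN0
    have h7 : (e₂ : ℤ) * N ≤ e₂ * |k| := mul_le_mul_of_nonneg_left h3 (by positivity)
    nlinarith
  rw [hk0] at hx hk
  constructor
  · have : (x : ℤ) = x' := by linarith
    exact_mod_cast this
  · have : (y : ℤ) = y' := by linarith
    exact_mod_cast this

/-- The directions of the first class, as pairs `⟨e₂, e₁⟩`. -/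
def dirs (E N : ℕ) : Finset (Σ _ : ℕ, ℕ) :=
  (pr4 E).sigma (fun e₂ => (Ico 1 e₂).filter (fun e₁ => ¬ (N : ℤ) ∣ (E : ℤ) * e₂ - e₁))

theorem mem_dirs {E N : ℕ} {e : Σ _ : ℕ, ℕ} : e ∈ dirs E N ↔
    ((E / 4 < e.1 ∧ e.1 ≤ E) ∧ e.1.Prime) ∧ (1 ≤ e.2 ∧ e.2 < e.1) ∧
      ¬ (N : ℤ) ∣ (E : ℤ) * e.1 - e.2 := by
  rw [dirs, mem_sigma, mem_pr4, mem_filter, mem_Ico]

theorem card_dirs_ge {E N : ℕ} (hEN : E ≤ N) : (pr4 E).card * (E / 4 - 1) ≤ (dirs E N).card := by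
  rw [dirs, card_sigma]
  rw [← smul_eq_mul, ← sum_const]
  apply sum_le_sum
  intro e₂ he
  rw [mem_pr4] at he
  have h1 : ((Ico 1 e₂).filter (fun e₁ : ℕ => (N : ℤ) ∣ (E : ℤ) * e₂ - e₁)).card ≤ 1 := by
    rw [card_le_one]
    intro a ha b hb
    rw [mem_filter, mem_Ico] at ha hb
    have h2 : (N : ℤ) ∣ (a : ℤ) - b := by
      have := dvd_sub hb.2 ha.2
      have h3 : (E : ℤ) * e₂ - b - ((E : ℤ) * e₂ - a) = (a : ℤ) - b := by ring
      rwa [h3] at this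
    by_contra hab
    have h4 : (a : ℤ) - b ≠ 0 := by
      intro h; apply hab
      have : (a : ℤ) = b := by linarith
      exact_mod_cast this
    have h5 := Int.le_of_dvd (abs_pos.mpr h4) ((dvd_abs _ _).mpr h2)
    have h6 : |(a : ℤ) - b| < N := by
      rcases abs_cases ((a : ℤ) - b) with ⟨h6, _⟩ | ⟨h6, _⟩ <;> rw [h6] <;> omega
    linarith
  have h2 := card_filter_add_card_filter_not (s := Ico 1 e₂)
    (fun e₁ : ℕ => (N : ℤ) ∣ (E : ℤ) * e₂ - e₁)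
  rw [Nat.card_Ico] at h2
  omega

theorem card_dirs_le {E N : ℕ} : (dirs E N).card ≤ E * E := by
  have h : (dirs E N).card ≤ ((Icc 1 E) ×ˢ (Icc 1 E)).card := by
    apply card_le_card_of_injOn (fun e => (e.1, e.2))
    · intro e he
      have := mem_dirs.mp (mem_coe.mp he)
      simp only [coe_product, coe_Icc, Set.mem_prod, Set.mem_Icc]
      omega
    · intro e _ e' _ h
      rcases e with ⟨a, b⟩
      rcases e' with ⟨c, d⟩
      simp only [Prod.mk.injEq] at h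
      obtain ⟨rfl, rfl⟩ := h
      rfl
  simpa using h

/-- The window, as pairs `⟨y, x⟩`. -/
def win (E N V : ℕ) : Finset (Σ _ : ℕ, ℕ) :=
  (Ioc (V / 2) V).sigma (fun y => (Icc 1 V).filter (fun x => (N : ℤ) ∣ (E : ℤ) * y - x))

theorem mem_win {E N V : ℕ} {w : Σ _ : ℕ, ℕ} : w ∈ win E N V ↔
    (V / 2 < w.1 ∧ w.1 ≤ V) ∧ (1 ≤ w.2 ∧ w.2 ≤ V) ∧ (N : ℤ) ∣ (E : ℤ) * w.1 - w.2 := by
  rw [win, mem_sigma, mem_Ioc, mem_filter, mem_Icc]

theorem fiber_ge {N V : ℕ} (hN : 0 < N) (c : ℕ) :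
    V / N ≤ ((Icc 1 V).filter (fun x : ℕ => (N : ℤ) ∣ (c : ℤ) - x)).card := by
  obtain ⟨r, hr1, hr2, hr3⟩ : ∃ r : ℕ, 1 ≤ r ∧ r ≤ N ∧ (N : ℤ) ∣ (c : ℤ) - r := by
    by_cases h : c % N = 0
    · refine ⟨N, hN, le_rfl, ?_⟩
      have h1 : N ∣ c := Nat.dvd_of_mod_eq_zero h
      have h2 : (N : ℤ) ∣ c := by exact_mod_cast h1
      exact dvd_sub h2 dvd_rfl
    · refine ⟨c % N, by omega, (Nat.mod_lt _ hN).le, ?_⟩
      push_cast
      exact Int.dvd_self_sub_emod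
  rw [← card_range (V / N)]
  apply card_le_card_of_injOn (fun j => j * N + r)
  · intro j hj
    rw [mem_coe, mem_range] at hj
    rw [mem_coe, mem_filter, mem_Icc]
    have h1 : (j + 1) * N ≤ V := (Nat.mul_le_mul_right N hj).trans (Nat.div_mul_le_self V N)
    have h3 : (j + 1) * N = j * N + N := by ring
    refine ⟨⟨?_, ?_⟩, ?_⟩
    · show 1 ≤ j * N + r
      omega
    · show j * N + r ≤ V
      omega
    · have h2 : (c : ℤ) - ((j * N + r : ℕ) : ℤ) = ((c : ℤ) - r) - N * j := by push_cast; ring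
      rw [h2]
      exact dvd_sub hr3 (Dvd.intro _ rfl)
  · intro j _ j' _ h
    simp only at h
    have : j * N = j' * N := by omega
    exact Nat.eq_of_mul_eq_mul_right hN this

theorem card_win_ge {E N V : ℕ} (hN : 0 < N) :
    (V - V / 2) * (V / N) ≤ (win E N V).card := by
  rw [win, card_sigma, ← Nat.card_Ioc, ← smul_eq_mul, ← sum_const]
  apply sum_le_sum
  intro y _
  have := fiber_ge (V := V) hN (E * y)
  push_cast at this
  exact this

/-- The points of the window which are bad for the direction `e` and the height `z`. -/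
def badP (E N V z : ℕ) (e : Σ _ : ℕ, ℕ) : Finset (Σ _ : ℕ, ℕ) :=
  (win E N V).filter (fun w => (z : ℤ) ∣ (w.2 : ℤ) * e.1 - w.1 * e.2)

theorem card_badP {E N V z : ℕ} (hN : N.Prime) (hNV : 2 * V ≤ N * E) (hz : V < 4 * z)
    {e : Σ _ : ℕ, ℕ} (he : e ∈ dirs E N) : (badP E N V z e).card ≤ 8 * E := by
  rw [mem_dirs] at he
  obtain ⟨⟨⟨a1, a2⟩, a3⟩, ⟨a4, a5⟩, a6⟩ := he
  have hz0 : (0 : ℤ) < z := by
    have : 0 < z := by omega
    exact_mod_cast this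
  have hcard : (Ioo (-(4 * E : ℤ)) (4 * E)).card ≤ 8 * E := by
    rw [Int.card_Ioo]
    omega
  refine le_trans ?_ hcard
  apply card_le_card_of_injOn (fun w => ((w.2 : ℤ) * e.1 - w.1 * e.2) / z)
  · intro w hw
    rw [mem_coe, badP, mem_filter, mem_win] at hw
    obtain ⟨⟨⟨b1, b2⟩, ⟨b3, b4⟩, b5⟩, b6⟩ := hw
    rw [mem_coe, mem_Ioo]
    obtain ⟨k, hk⟩ := b6
    have hk' : ((w.2 : ℤ) * e.1 - w.1 * e.2) / z = k := by
      rw [hk]; exact Int.mul_ediv_cancel_left _ hz0.ne'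
    simp only
    rw [hk']
    have c1 : (w.2 : ℤ) * e.1 ≤ V * E := by
      have : w.2 * e.1 ≤ V * E := Nat.mul_le_mul b4 a2
      exact_mod_cast this
    have c2 : (0 : ℤ) < (w.1 : ℤ) * e.2 := by
      have : 0 < w.1 * e.2 := Nat.mul_pos (by omega) (by omega)
      exact_mod_cast this
    have c3 : (w.1 : ℤ) * e.2 ≤ V * E := by
      have : w.1 * e.2 ≤ V * E := Nat.mul_le_mul b2 (by omega)
      exact_mod_cast this
    have c4 : (0 : ℤ) < (w.2 : ℤ) * e.1 := by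
      have : 0 < w.2 * e.1 := Nat.mul_pos (by omega) a3.pos
      exact_mod_cast this
    have hE0 : (0 : ℤ) < E := by
      have : 0 < E := by omega
      exact_mod_cast this
    have hz' : (V : ℤ) < 4 * z := by exact_mod_cast hz
    have c5 : (V : ℤ) * E < 4 * z * E := mul_lt_mul_of_pos_right hz' hE0
    constructor
    · have : (z : ℤ) * (-(4 * E)) < z * k := by rw [← hk]; linarith
      exact lt_of_mul_lt_mul_left this hz0.le
    · have : (z : ℤ) * k < z * (4 * E) := by rw [← hk]; linarith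
      exact lt_of_mul_lt_mul_left this hz0.le
  · intro w hw w' hw' h
    rw [mem_coe, badP, mem_filter, mem_win] at hw hw'
    obtain ⟨⟨⟨b1, b2⟩, ⟨b3, b4⟩, b5⟩, k, hk⟩ := hw
    obtain ⟨⟨⟨b1', b2'⟩, ⟨b3', b4'⟩, b5'⟩, k', hk'⟩ := hw'
    simp only at h
    rw [hk, hk', Int.mul_ediv_cancel_left _ hz0.ne', Int.mul_ediv_cancel_left _ hz0.ne'] at h
    subst h
    have h2 : ((w.2 : ℤ) - w'.2) * e.1 = (w.1 - w'.1) * e.2 := by linarith
    obtain ⟨h3, h4⟩ := par_eq hN hNV a4 a5 a3 (by omega) a6 (by omega) b2 (by omega) b2' b5 b5' h2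
    rcases w with ⟨y, x⟩
    rcases w' with ⟨y', x'⟩
    simp only at h3 h4
    subst h3
    subst h4
    rfl

/-- The points of the window allowed at the height `z`. -/
def goodP (E N V z : ℕ) : Finset (Σ _ : ℕ, ℕ) :=
  (win E N V).filter (fun w => ∀ e ∈ dirs E N, ¬ (z : ℤ) ∣ (w.2 : ℤ) * e.1 - w.1 * e.2)

theorem card_goodP {E N V z : ℕ} (hN : N.Prime) (hNV : 2 * V ≤ N * E) (hz : V < 4 * z) :
    (V - V / 2) * (V / N) ≤ (goodP E N V z).card + E * E * (8 * E) := by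
  classical
  have h1 : win E N V ⊆ goodP E N V z ∪ (dirs E N).biUnion (badP E N V z) := by
    intro w hw
    by_cases h : ∀ e ∈ dirs E N, ¬ (z : ℤ) ∣ (w.2 : ℤ) * e.1 - w.1 * e.2
    · exact mem_union_left _ (mem_filter.mpr ⟨hw, h⟩)
    · push Not at h
      obtain ⟨e, he, hd⟩ := h
      exact mem_union_right _ (mem_biUnion.mpr ⟨e, he, mem_filter.mpr ⟨hw, hd⟩⟩)
  have h2 : ((dirs E N).biUnion (badP E N V z)).card ≤ E * E * (8 * E) := by
    calc ((dirs E N).biUnion (badP E N V z)).card ≤ (dirs E N).card * (8 * E) :=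
          card_biUnion_le_card_mul _ _ _ (fun e he => card_badP hN hNV hz he)
      _ ≤ E * E * (8 * E) := Nat.mul_le_mul_right _ card_dirs_le
  calc (V - V / 2) * (V / N) ≤ (win E N V).card := card_win_ge hN.pos
    _ ≤ (goodP E N V z ∪ (dirs E N).biUnion (badP E N V z)).card := card_le_card h1
    _ ≤ (goodP E N V z).card + ((dirs E N).biUnion (badP E N V z)).card := card_union_le _ _
    _ ≤ (goodP E N V z).card + E * E * (8 * E) := by omega

/-- The index set of the second class, as triples `⟨z, y, x⟩`. -/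
def secondC (E N V : ℕ) : Finset (Σ _ : ℕ, Σ _ : ℕ, ℕ) := (pr4 V).sigma (goodP E N V)

theorem card_secondC {E N V c : ℕ} (h : ∀ z ∈ pr4 V, c ≤ (goodP E N V z).card) :
    (pr4 V).card * c ≤ (secondC E N V).card := by
  rw [secondC, card_sigma, ← smul_eq_mul, ← sum_const]
  exact sum_le_sum h

/-- **The finite construction.** -/
theorem drawn_of_param {E l n : ℕ} (hE : 8 ≤ E) (hl : 256 ≤ l)
    (hpr : E ^ 2 ≤ (pr4 (4 * (E ^ 2 * l))).card) (hn : 2 ≤ n)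
    (hnA : n ≤ (pr4 (1024 * E ^ 3 * l)).card * ((pr4 E).card * (E / 4 - 1)))
    (hnB : n ≤ (pr4 (256 * E ^ 2)).card * (12 * E ^ 3)) :
    CanBeDrawn (Knn n) (1024 * E ^ 4 * l + 1) (1024 * E ^ 4 * l + 1)
      (1024 * E ^ 4 * l + 1) := by
  classical
  obtain ⟨N, hN, hN1, hN2⟩ := Nat.exists_prime_lt_and_le_two_mul (512 * E) (by omega)
  set V := 256 * E ^ 2 with hV
  set D := E ^ 2 * l with hD
  have hE2 : E ^ 2 ≤ D := Nat.le_mul_of_pos_right _ (by omega)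
  have hVD : V ≤ D := by
    rw [hV, hD, Nat.mul_comm]; exact Nat.mul_le_mul_left _ hl
  have hNV : 2 * V ≤ N * E := by
    have : 512 * E * E ≤ N * E := Nat.mul_le_mul_right _ hN1.le
    rw [hV]; nlinarith
  -- the primes `p k`
  obtain ⟨f⟩ : Nonempty (Fin (E ^ 2) ↪ ↥(pr4 (4 * D))) := by
    apply Function.Embedding.nonempty_of_card_le
    simpa using hpr
  set pk : ℕ → ℕ := fun k => if h : k < E ^ 2 then (f ⟨k, h⟩ : ℕ) else 0 with hpk
  have hpk1 : ∀ k, k < E ^ 2 → pk k ∈ pr4 (4 * D) := by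
    intro k hk
    simp only [hpk, dif_pos hk]
    exact (f ⟨k, hk⟩).2
  have hpk2 : ∀ k k', k < E ^ 2 → k' < E ^ 2 → pk k = pk k' → k = k' := by
    intro k k' hk hk' h
    simp only [hpk, dif_pos hk, dif_pos hk'] at h
    have := f.injective (Subtype.ext h)
    simpa using this
  -- the index `k` of a point of the window
  set kk : (Σ _ : ℕ, Σ _ : ℕ, ℕ) → ℕ := fun b => (E * b.2.1 - b.2.2) / N with hkk
  have hkey : ∀ b : ↥(secondC E N V), BOk E N V b.1.1 b.1.2.2 b.1.2.1 ∧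
      kk b.1 < E ^ 2 ∧ (E : ℤ) * b.1.2.1 - b.1.2.2 = N * kk b.1 := by
    rintro ⟨⟨z, y, x⟩, hb⟩
    rw [secondC, mem_sigma, mem_pr4, goodP, mem_filter, mem_win] at hb
    obtain ⟨⟨⟨b1, b2⟩, b3⟩, ⟨⟨b4, b5⟩, ⟨b6, b7⟩, b8⟩, b9⟩ := hb
    simp only at b1 b2 b3 b4 b5 b6 b7 b8 b9 ⊢
    have hxy : x ≤ E * y := by
      have h1 : x ≤ 2 * y := by omega
      exact h1.trans (Nat.mul_le_mul_right _ (by omega))
    have hd : N ∣ E * y - x := by
      have : ((E * y - x : ℕ) : ℤ) = (E : ℤ) * y - x := by push_cast [Nat.cast_sub hxy]; ring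
      rw [← this] at b8
      exact_mod_cast b8
    refine ⟨⟨b3, b2, b6, b7, by omega, b5, b8, ?_⟩, ?_, ?_⟩
    · intro e₁ e₂ h1 h2 h3 h4 h5 h6
      exact b9 ⟨e₂, e₁⟩ (mem_dirs.mpr ⟨⟨⟨by simp only; omega, h3⟩, h4⟩, ⟨h1, h2⟩, h6⟩)
    · simp only [hkk]
      rw [Nat.div_lt_iff_lt_mul hN.pos]
      have h1 : E * y ≤ E * V := Nat.mul_le_mul_left _ b5
      have h2 : E ^ 2 * (512 * E) < E ^ 2 * N :=
        Nat.mul_lt_mul_of_pos_left hN1 (by positivity)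
      have h3 : E * V = 256 * E ^ 3 := by rw [hV]; ring
      have h4 : E ^ 2 * (512 * E) = 512 * E ^ 3 := by ring
      omega
    · simp only [hkk]
      have h1 : N * ((E * y - x) / N) = E * y - x := Nat.mul_div_cancel' hd
      have h2 : ((N * ((E * y - x) / N) : ℕ) : ℤ) = (E : ℤ) * y - x := by
        rw [h1]; push_cast [Nat.cast_sub hxy]; ring
      rw [← h2]; push_cast; ring
  have hAok : ∀ a : ↥(pr4 (1024 * E ^ 3 * l)) × ↥(dirs E N),
      AOk E N D a.1.1 a.2.1.2 a.2.1.1 := by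
    rintro ⟨⟨t, ht⟩, ⟨⟨e₂, e₁⟩, he⟩⟩
    rw [mem_pr4] at ht
    rw [mem_dirs] at he
    obtain ⟨⟨t1, t2⟩, t3⟩ := ht
    obtain ⟨⟨⟨a1, a2⟩, a3⟩, ⟨a4, a5⟩, a6⟩ := he
    simp only at a1 a2 a3 a4 a5 a6 ⊢
    have h1 : 1024 * E ^ 3 * l / 4 = 256 * E ^ 3 * l := by
      have : 1024 * E ^ 3 * l = 4 * (256 * E ^ 3 * l) := by ring
      rw [this]; exact Nat.mul_div_cancel_left _ (by norm_num)
    have h2 : 4 * D ≤ 256 * E ^ 3 * l := by
      have : 256 * E ^ 3 * l = 4 * D * (64 * E) := by rw [hD]; ring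
      rw [this]; exact Nat.le_mul_of_pos_right _ (by omega)
    exact ⟨t3, by omega, by omega, a4, a5, a2, a3, by omega, a6⟩
  have hdist : ∀ b b' : ↥(secondC E N V), b ≠ b' →
      ¬ (b.1.1 = b'.1.1 ∧ b.1.2.2 = b'.1.2.2 ∧ b.1.2.1 = b'.1.2.1) := by
    rintro ⟨⟨z, y, x⟩, hb⟩ ⟨⟨z', y', x'⟩, hb'⟩ hne ⟨h1, h2, h3⟩
    simp only at h1 h2 h3
    subst h1
    subst h2
    subst h3
    exact hne rfl
  have hdistA : ∀ a a' : ↥(pr4 (1024 * E ^ 3 * l)) × ↥(dirs E N), a ≠ a' →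
      ¬ (a.1.1 = a'.1.1 ∧ a.2.1.2 = a'.2.1.2 ∧ a.2.1.1 = a'.2.1.1) := by
    rintro ⟨⟨t, ht⟩, ⟨⟨e₂, e₁⟩, he⟩⟩ ⟨⟨t', ht'⟩, ⟨⟨e₂', e₁'⟩, he'⟩⟩ hne ⟨h1, h2, h3⟩
    simp only at h1 h2 h3
    subst h1
    subst h2
    subst h3
    exact hne rfl
  have hcore : ∀ (a a' : ↥(pr4 (1024 * E ^ 3 * l)) × ↥(dirs E N)) (b b' : ↥(secondC E N V)),
      a ≠ a' → b ≠ b' →
      cop ((a.1.1 : ℤ) * a.2.1.2) (a.1.1 * a.2.1.1) (a'.1.1 * a'.2.1.2) (a'.1.1 * a'.2.1.1)
        (pk (kk b.1) * b.1.2.2) (pk (kk b.1) * b.1.2.1) (pk (kk b.1) * b.1.1)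
        (pk (kk b'.1) * b'.1.2.2) (pk (kk b'.1) * b'.1.2.1) (pk (kk b'.1) * b'.1.1) ≠ 0 := by
    intro a a' b b' haa hbb
    obtain ⟨k1, k2, k3⟩ := hkey b
    obtain ⟨k1', k2', k3'⟩ := hkey b'
    have hp := mem_pr4.mp (hpk1 _ k2)
    have hp' := mem_pr4.mp (hpk1 _ k2')
    have hN0 : (N : ℤ) ≠ 0 := by exact_mod_cast hN.ne_zero
    refine core hN hE2 hVD hNV (hAok a) (hAok a') k1 k1' hp.2 hp'.2 (by omega) (by omega)
      (by omega) (by omega) ?_ ?_ (hdistA a a' haa) (hdist b b' hbb)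
    · intro h
      have := hpk2 _ _ k2 k2' h
      rw [k3, k3', this]
    · intro h
      rw [k3, k3'] at h
      have h1 := mul_left_cancel₀ hN0 h
      have h2 : kk b.1 = kk b'.1 := by exact_mod_cast h1
      rw [h2]
  -- sizes
  have hcA : n ≤ Fintype.card (↥(pr4 (1024 * E ^ 3 * l)) × ↥(dirs E N)) := by
    rw [Fintype.card_prod, Fintype.card_coe, Fintype.card_coe]
    exact hnA.trans (Nat.mul_le_mul_left _ (card_dirs_ge (by omega)))
  have hcB : n ≤ Fintype.card ↥(secondC E N V) := by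
    rw [Fintype.card_coe]
    refine hnB.trans (card_secondC ?_)
    intro z hz
    rw [mem_pr4] at hz
    have h1 := card_goodP (E := E) (N := N) (V := V) (z := z) hN hNV (by omega)
    have h2 : V - V / 2 = 128 * E ^ 2 := by
      have : V / 2 = 128 * E ^ 2 := by
        rw [hV, show 256 * E ^ 2 = 2 * (128 * E ^ 2) by ring]
        exact Nat.mul_div_cancel_left _ (by norm_num)
      omega
    have h3 : E / 4 ≤ V / N := by
      rw [Nat.le_div_iff_mul_le hN.pos]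
      have h4 : E / 4 * N ≤ E / 4 * (1024 * E) := Nat.mul_le_mul_left _ (by omega)
      have h5 : E / 4 * 4 ≤ E := Nat.div_mul_le_self E 4
      have h6 : E / 4 * (1024 * E) = E / 4 * 4 * (256 * E) := by ring
      have h7 : E / 4 * 4 * (256 * E) ≤ E * (256 * E) := Nat.mul_le_mul_right _ h5
      have h8 : E * (256 * E) = V := by rw [hV]; ring
      omega
    have h4 : 128 * E ^ 2 * (E / 4) ≤ (goodP E N V z).card + E * E * (8 * E) := by
      rw [h2] at h1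
      exact (Nat.mul_le_mul_left _ h3).trans h1
    have h5 : E ≤ 4 * (E / 4) + 3 := by omega
    have h6 : 32 * E ^ 2 * E ≤ 32 * E ^ 2 * (4 * (E / 4) + 3) := Nat.mul_le_mul_left _ h5
    have h7 : E ^ 2 * 8 ≤ E ^ 2 * E := Nat.mul_le_mul_left _ hE
    have h8 : 32 * E ^ 2 * (4 * (E / 4) + 3) = 128 * E ^ 2 * (E / 4) + 96 * E ^ 2 := by ring
    have h9 : E ^ 3 = E ^ 2 * E := by ring
    have h10 : E * E * (8 * E) = 8 * (E ^ 2 * E) := by ring
    have h11 : 32 * E ^ 2 * E = 32 * (E ^ 2 * E) := by ring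
    omega
  have : Nontrivial (↥(pr4 (1024 * E ^ 3 * l)) × ↥(dirs E N)) :=
    Fintype.one_lt_card_iff_nontrivial.mp (by omega)
  have : Nontrivial ↥(secondC E N V) := Fintype.one_lt_card_iff_nontrivial.mp (by omega)
  have hM : 4 * D * V = 1024 * E ^ 4 * l := by rw [hD, hV]; ring
  refine canBeDrawn_of_families hn hcA hcB (fun a => (a.1.1 : ℤ) * a.2.1.2)
    (fun a => (a.1.1 : ℤ) * a.2.1.1) (fun b => (pk (kk b.1) : ℤ) * b.1.2.2)
    (fun b => (pk (kk b.1) : ℤ) * b.1.2.1) (fun b => (pk (kk b.1) : ℤ) * b.1.1)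
    ?_ ?_ hcore ?_ ?_
  · intro a a' h1 h2
    by_contra haa
    obtain ⟨b, b', hbb⟩ := exists_pair_ne ↥(secondC E N V)
    apply hcore a a' b b' haa hbb
    rw [h1, h2]
    unfold cop
    ring
  · intro b b' h1 h2 h3
    by_contra hbb
    obtain ⟨a, a', haa⟩ := exists_pair_ne (↥(pr4 (1024 * E ^ 3 * l)) × ↥(dirs E N))
    apply hcore a a' b b' haa hbb
    rw [h1, h2, h3]
    unfold cop
    ring
  · intro a
    have h := hAok a
    have ht := (mem_pr4.mp a.1.2).1.2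
    have h1 : a.1.1 * a.2.1.1 ≤ 1024 * E ^ 4 * l := by
      calc a.1.1 * a.2.1.1 ≤ 1024 * E ^ 3 * l * E := Nat.mul_le_mul ht h.e2
        _ = 1024 * E ^ 4 * l := by ring
    have h2 : a.1.1 * a.2.1.2 ≤ a.1.1 * a.2.1.1 := Nat.mul_le_mul_left _ h.e12.le
    have h3 : 0 < a.1.1 * a.2.1.2 := Nat.mul_pos h.tp.pos h.e1
    zify at h1 h2 h3
    push_cast
    refine ⟨⟨?_, ?_⟩, ⟨?_, ?_⟩⟩ <;> linarith
  · intro b
    obtain ⟨h, k2, k3⟩ := hkey b
    have hp := mem_pr4.mp (hpk1 _ k2)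
    have hp4 : pk (kk b.1) ≤ 4 * D := hp.1.2
    have h1 : pk (kk b.1) * b.1.2.2 ≤ 4 * D * V := Nat.mul_le_mul hp4 h.xV
    have h2 : pk (kk b.1) * b.1.2.1 ≤ 4 * D * V := Nat.mul_le_mul hp4 h.yV
    have h3 : pk (kk b.1) * b.1.1 ≤ 4 * D * V := Nat.mul_le_mul hp4 h.zV
    have h4 : 0 < pk (kk b.1) * b.1.2.2 := Nat.mul_pos hp.2.pos h.x1
    have h5 : 0 < pk (kk b.1) * b.1.2.1 := Nat.mul_pos hp.2.pos (by have := h.y1; omega)
    have h6 : 0 < pk (kk b.1) * b.1.1 := Nat.mul_pos hp.2.pos h.zp.pos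
    rw [hM] at h1 h2 h3
    zify at h1 h2 h3 h4 h5 h6
    push_cast
    refine ⟨⟨?_, ?_⟩, ⟨?_, ?_⟩, ⟨?_, ?_⟩⟩ <;> linarith

end Pool.Agent.H88.KP
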