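import Pool.Agent.H49.KNN.Defs

/-!
# The geometric criterion with a planar first class

The points `(x, y, 1)` of the first class and the points `(X, Y, Z + 1)`, `Z > 0`, of the second
class give a drawing as soon as no two points of the first class are coplanar with two points of
the second class.
-/

namespace Pool.Agent.H88.KP

open Pool.Agent.H49.KNN

/-- The coplanarity determinant of `(x, y, 0)`, `(x', y', 0)`, `(X, Y, Z)`, `(X', Y', Z')`. -/
def cop {R : Type*} [CommRing R] (x y x' y' X Y Z X' Y' Z' : R) : R :=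
  (Z' * X - Z * X') * (y' - y) - (Z' * Y - Z * Y') * (x' - x) - (Z' - Z) * (x * y' - x' * y)

theorem cop_of_cross {x y x' y' X Y Z X' Y' Z' s t : ℝ} (hZ : 0 < Z) (hZ' : 0 < Z')
    (hs : s ≠ 0)
    (h1 : (1 - s) * x + s * X = (1 - t) * x' + t * X')
    (h2 : (1 - s) * y + s * Y = (1 - t) * y' + t * Y')
    (h3 : s * Z = t * Z') :
    cop x y x' y' X Y Z X' Y' Z' = 0 := by
  have hr : s * Z ≠ 0 := mul_ne_zero hs hZ.ne'
  have e1 : (s * Z) * (Z' * X - Z * X' - Z' * x + Z * x') = Z * Z' * (x' - x) := by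
    linear_combination (Z * Z') * h1 + (Z * x' - Z * X') * h3
  have e2 : (s * Z) * (Z' * Y - Z * Y' - Z' * y + Z * y') = Z * Z' * (y' - y) := by
    linear_combination (Z * Z') * h2 + (Z * y' - Z * Y') * h3
  have e3 : (s * Z) * cop x y x' y' X Y Z X' Y' Z' = 0 := by
    unfold cop
    linear_combination (y' - y) * e1 - (x' - x) * e2
  exact (mul_eq_zero.mp e3).resolve_left hr

/-- If `(x, y, 0)`, `(X, Y, Z)`, `(X', Y', Z')` are collinear then any fourth point of the plane is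
coplanar with them. -/
theorem cop_of_collinear {x y X Y Z X' Y' Z' s t : ℝ} (hZ : 0 < Z) (hZ' : 0 < Z')
    (hs : s ≠ 0)
    (h1 : (1 - s) * x + s * X = (1 - t) * x + t * X')
    (h2 : (1 - s) * y + s * Y = (1 - t) * y + t * Y')
    (h3 : s * Z = t * Z') (x' y' : ℝ) :
    cop x y x' y' X Y Z X' Y' Z' = 0 := by
  have hr : s * Z ≠ 0 := mul_ne_zero hs hZ.ne'
  have e1 : (s * Z) * (Z' * X - Z * X' - Z' * x + Z * x) = 0 := by
    linear_combination (Z * Z') * h1 + (Z * x - Z * X') * h3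
  have e2 : (s * Z) * (Z' * Y - Z * Y' - Z' * y + Z * y) = 0 := by
    linear_combination (Z * Z') * h2 + (Z * y - Z * Y') * h3
  have e1' := (mul_eq_zero.mp e1).resolve_left hr
  have e2' := (mul_eq_zero.mp e2).resolve_left hr
  unfold cop
  linear_combination (y' - y) * e1' - (x' - x) * e2'

/-- Points of the first class. -/
def aPt (x y : ℤ) : Fin 3 → ℤ := ![x, y, 1]

/-- Points of the second class. -/
def bPt (X Y Z : ℤ) : Fin 3 → ℤ := ![X, Y, Z + 1]

theorem mem_seg {x y X Y Z : ℤ} {q : Fin 3 → ℝ}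
    (h : q ∈ segment ℝ (toReal (aPt x y)) (toReal (bPt X Y Z))) :
    ∃ s : ℝ, q 0 = (1 - s) * x + s * X ∧ q 1 = (1 - s) * y + s * Y ∧
      q 2 = 1 + s * Z := by
  rw [segment_eq_image] at h
  obtain ⟨s, -, rfl⟩ := h
  refine ⟨s, ?_, ?_, ?_⟩
  · simp [toReal, aPt, bPt]
  · simp [toReal, aPt, bPt]
  · simp [toReal, aPt, bPt]
    ring

theorem eq_toReal_aPt {x y : ℤ} {q : Fin 3 → ℝ} (h0 : q 0 = x) (h1 : q 1 = y) (h2 : q 2 = 1) :
    q = toReal (aPt x y) := by
  funext j
  fin_cases j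
  · simpa [toReal, aPt] using h0
  · simpa [toReal, aPt] using h1
  · simpa [toReal, aPt] using h2

theorem eq_toReal_bPt {X Y Z : ℤ} {q : Fin 3 → ℝ} (h0 : q 0 = X) (h1 : q 1 = Y)
    (h2 : q 2 = 1 + Z) : q = toReal (bPt X Y Z) := by
  funext j
  fin_cases j
  · simpa [toReal, bPt] using h0
  · simpa [toReal, bPt] using h1
  · have : q 2 = (Z : ℝ) + 1 := by rw [h2]; ring
    simpa [toReal, bPt] using this

theorem cop_cast (x y x' y' X Y Z X' Y' Z' : ℤ) :
    ((cop x y x' y' X Y Z X' Y' Z' : ℤ) : ℝ) =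
      cop (x : ℝ) (y : ℝ) (x' : ℝ) (y' : ℝ) (X : ℝ) (Y : ℝ) (Z : ℝ) (X' : ℝ) (Y' : ℝ)
        (Z' : ℝ) := by
  unfold cop
  push_cast
  ring

/-- Two edges, in the situation of the criterion. -/
theorem edges_core {x y x' y' X Y Z X' Y' Z' : ℤ} {q : Fin 3 → ℝ}
    (hz : 0 < Z) (hz' : 0 < Z')
    (hq : q ∈ segment ℝ (toReal (aPt x y)) (toReal (bPt X Y Z)))
    (hq' : q ∈ segment ℝ (toReal (aPt x' y')) (toReal (bPt X' Y' Z')))
    (hP : ¬ (x = x' ∧ y = y') → ¬ (X = X' ∧ Y = Y' ∧ Z = Z') →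
      cop x y x' y' X Y Z X' Y' Z' ≠ 0)
    (hC : ¬ (X = X' ∧ Y = Y' ∧ Z = Z') → ∃ x'' y'' : ℤ, cop x y x'' y'' X Y Z X' Y' Z' ≠ 0)
    (hne : ¬ ((x = x' ∧ y = y') ∧ (X = X' ∧ Y = Y' ∧ Z = Z'))) :
    ((x = x' ∧ y = y') ∧ q = toReal (aPt x y)) ∨
      ((X = X' ∧ Y = Y' ∧ Z = Z') ∧ q = toReal (bPt X Y Z)) := by
  obtain ⟨s, h0, h1, h2⟩ := mem_seg hq
  obtain ⟨t, h0', h1', h2'⟩ := mem_seg hq'
  have e0 : (1 - s) * (x : ℝ) + s * X = (1 - t) * x' + t * X' := by rw [← h0, ← h0']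
  have e1 : (1 - s) * (y : ℝ) + s * Y = (1 - t) * y' + t * Y' := by rw [← h1, ← h1']
  have e2 : s * (Z : ℝ) = t * Z' := by
    have : (1 : ℝ) + s * Z = 1 + t * Z' := by rw [← h2, ← h2']
    linarith
  have rz : (0 : ℝ) < (Z : ℝ) := by exact_mod_cast hz
  have rz' : (0 : ℝ) < (Z' : ℝ) := by exact_mod_cast hz'
  by_cases hab : x = x' ∧ y = y'
  · -- common first end
    left
    refine ⟨hab, ?_⟩
    obtain ⟨rfl, rfl⟩ := hab
    have hbb : ¬ (X = X' ∧ Y = Y' ∧ Z = Z') := fun h => hne ⟨⟨rfl, rfl⟩, h⟩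
    have hs : s = 0 := by
      by_contra hs
      obtain ⟨x'', y'', hxy⟩ := hC hbb
      apply hxy
      have := cop_of_collinear rz rz' hs e0 e1 e2 x'' y''
      have h3 := cop_cast x y x'' y'' X Y Z X' Y' Z'
      rw [this] at h3
      exact_mod_cast h3
    subst hs
    exact eq_toReal_aPt (by rw [h0]; ring) (by rw [h1]; ring) (by rw [h2]; ring)
  · by_cases hbb : X = X' ∧ Y = Y' ∧ Z = Z'
    · right
      refine ⟨hbb, ?_⟩
      obtain ⟨rfl, rfl, rfl⟩ := hbb
      have hst : s = t := by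
        have : (s - t) * (Z : ℝ) = 0 := by linear_combination e2
        rcases mul_eq_zero.mp this with h | h
        · linarith
        · exact absurd h rz.ne'
      subst hst
      have hs : 1 - s = 0 := by
        by_contra hs
        apply hab
        have hx : (1 - s) * ((x : ℝ) - x') = 0 := by linear_combination e0
        have hy : (1 - s) * ((y : ℝ) - y') = 0 := by linear_combination e1
        refine ⟨?_, ?_⟩
        · rcases mul_eq_zero.mp hx with h | h
          · exact absurd h hs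
          · have : (x : ℝ) = x' := by linarith
            exact_mod_cast this
        · rcases mul_eq_zero.mp hy with h | h
          · exact absurd h hs
          · have : (y : ℝ) = y' := by linarith
            exact_mod_cast this
      have hs1 : s = 1 := by linarith
      subst hs1
      exact eq_toReal_bPt (by rw [h0]; ring) (by rw [h1]; ring) (by rw [h2]; ring)
    · exfalso
      by_cases hs : s = 0
      · subst hs
        have ht : t = 0 := by
          have : t * (Z' : ℝ) = 0 := by linarith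
          rcases mul_eq_zero.mp this with h | h
          · exact h
          · exact absurd h rz'.ne'
        subst ht
        apply hab
        refine ⟨?_, ?_⟩
        · have : (x : ℝ) = x' := by linarith
          exact_mod_cast this
        · have : (y : ℝ) = y' := by linarith
          exact_mod_cast this
      · apply hP hab hbb
        have := cop_of_cross rz rz' hs e0 e1 e2
        have h3 := cop_cast x y x' y' X Y Z X' Y' Z'
        rw [this] at h3
        exact_mod_cast h3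

/-- No vertex of the first class on an edge. -/
theorem vertex_core_a {x y x' y' X Y Z : ℤ} (hz : 0 < Z)
    (hq : toReal (aPt x' y') ∈ segment ℝ (toReal (aPt x y)) (toReal (bPt X Y Z))) :
    x' = x ∧ y' = y := by
  obtain ⟨s, h0, h1, h2⟩ := mem_seg hq
  have rz : (0 : ℝ) < (Z : ℝ) := by exact_mod_cast hz
  have h2' : (1 : ℝ) = 1 + s * Z := by simpa [toReal, aPt] using h2
  have hs : s = 0 := by
    have : s * (Z : ℝ) = 0 := by linarith
    rcases mul_eq_zero.mp this with h | h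
    · exact h
    · exact absurd h rz.ne'
  subst hs
  have h0' : (x' : ℝ) = x := by simpa [toReal, aPt] using h0
  have h1' : (y' : ℝ) = y := by simpa [toReal, aPt] using h1
  exact ⟨by exact_mod_cast h0', by exact_mod_cast h1'⟩

/-- No other vertex of the second class on an edge. -/
theorem vertex_core_b {x y X Y Z X' Y' Z' : ℤ} (hz : 0 < Z) (hz' : 0 < Z')
    (hC : ¬ (X = X' ∧ Y = Y' ∧ Z = Z') → ∃ x'' y'' : ℤ, cop x y x'' y'' X Y Z X' Y' Z' ≠ 0)
    (hq : toReal (bPt X' Y' Z') ∈ segment ℝ (toReal (aPt x y)) (toReal (bPt X Y Z))) :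
    X = X' ∧ Y = Y' ∧ Z = Z' := by
  by_contra hbb
  obtain ⟨x'', y'', hxy⟩ := hC hbb
  obtain ⟨s, h0, h1, h2⟩ := mem_seg hq
  have rz : (0 : ℝ) < (Z : ℝ) := by exact_mod_cast hz
  have rz' : (0 : ℝ) < (Z' : ℝ) := by exact_mod_cast hz'
  have h0' : (X' : ℝ) = (1 - s) * x + s * X := by simpa [toReal, bPt] using h0
  have h1' : (Y' : ℝ) = (1 - s) * y + s * Y := by simpa [toReal, bPt] using h1
  have h2' : (Z' : ℝ) + 1 = 1 + s * Z := by simpa [toReal, bPt] using h2
  have hs : s ≠ 0 := by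
    rintro rfl
    have : (Z' : ℝ) = 0 := by linarith
    exact rz'.ne' this
  apply hxy
  have := cop_of_collinear (s := s) (t := 1) (x := x) (y := y) (X := X) (Y := Y) (Z := Z)
    (X' := X') (Y' := Y') (Z' := Z') rz rz' hs (by rw [h0']; ring) (by rw [h1']; ring)
    (by linarith) x'' y''
  have h3 := cop_cast x y x'' y'' X Y Z X' Y' Z'
  rw [this] at h3
  exact_mod_cast h3

/-- The placement of the vertices of the complete bipartite graph. -/
def place {α β : Type*} (x y : α → ℤ) (X Y Z : β → ℤ) : α ⊕ β → Fin 3 → ℤ :=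
  Sum.elim (fun a => aPt (x a) (y a)) (fun b => bPt (X b) (Y b) (Z b))

theorem aPt_inj {x y x' y' : ℤ} (h : aPt x y = aPt x' y') : x = x' ∧ y = y' := by
  have h0 := congrFun h 0
  have h1 := congrFun h 1
  simp [aPt] at h0 h1
  exact ⟨h0, h1⟩

theorem bPt_inj {X Y Z X' Y' Z' : ℤ} (h : bPt X Y Z = bPt X' Y' Z') :
    X = X' ∧ Y = Y' ∧ Z = Z' := by
  have h0 := congrFun h 0
  have h1 := congrFun h 1
  have h2 := congrFun h 2
  simp [bPt] at h0 h1 h2
  exact ⟨h0, h1, h2⟩

theorem aPt_ne_bPt {x y X Y Z : ℤ} (hz : 0 < Z) : aPt x y ≠ bPt X Y Z := by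
  intro h
  have h2 := congrFun h 2
  simp [aPt, bPt] at h2
  omega

/-- **The geometric criterion.** -/
theorem isGridDrawing_place {α β : Type*} [Nontrivial α] (x y : α → ℤ) (X Y Z : β → ℤ)
    (hz : ∀ b, 0 < Z b)
    (hA : ∀ a a', x a = x a' → y a = y a' → a = a')
    (hB : ∀ b b', X b = X b' → Y b = Y b' → Z b = Z b' → b = b')
    (hP : ∀ a a' b b', a ≠ a' → b ≠ b' →
      cop (x a) (y a) (x a') (y a') (X b) (Y b) (Z b) (X b') (Y b') (Z b') ≠ 0) :
    IsGridDrawing (completeBipartiteGraph α β) (place x y X Y Z) := by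
  classical
  have hC : ∀ (a : α) (b b' : β), ¬ (X b = X b' ∧ Y b = Y b' ∧ Z b = Z b') →
      ∃ x'' y'' : ℤ, cop (x a) (y a) x'' y'' (X b) (Y b) (Z b) (X b') (Y b') (Z b') ≠ 0 := by
    intro a b b' h
    obtain ⟨a', ha'⟩ := exists_ne a
    refine ⟨x a', y a', hP a a' b b' ha'.symm ?_⟩
    rintro rfl
    exact h ⟨rfl, rfl, rfl⟩
  have hinj : Function.Injective (place x y X Y Z) := by
    intro u v huv
    rcases u with a | b <;> rcases v with a' | b'
    · simp only [place, Sum.elim_inl] at huv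
      obtain ⟨h1, h2⟩ := aPt_inj huv
      rw [hA a a' h1 h2]
    · simp only [place, Sum.elim_inl, Sum.elim_inr] at huv
      exact absurd huv (aPt_ne_bPt (hz b'))
    · simp only [place, Sum.elim_inl, Sum.elim_inr] at huv
      exact absurd huv.symm (aPt_ne_bPt (hz b))
    · simp only [place, Sum.elim_inr] at huv
      obtain ⟨h1, h2, h3⟩ := bPt_inj huv
      rw [hB b b' h1 h2 h3]
  have hadj : ∀ u v : α ⊕ β, (completeBipartiteGraph α β).Adj u v →
      ∃ a b, (u = Sum.inl a ∧ v = Sum.inr b) ∨ (u = Sum.inr b ∧ v = Sum.inl a) := by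
    intro u v h
    rcases u with a | b <;> rcases v with a' | b'
    · simp [completeBipartiteGraph] at h
    · exact ⟨a, b', Or.inl ⟨rfl, rfl⟩⟩
    · exact ⟨a', b, Or.inr ⟨rfl, rfl⟩⟩
    · simp [completeBipartiteGraph] at h
  have hvert : ∀ (a : α) (b : β) (w : α ⊕ β), w ≠ Sum.inl a → w ≠ Sum.inr b →
      toReal (place x y X Y Z w) ∉
        segment ℝ (toReal (place x y X Y Z (Sum.inl a)))
          (toReal (place x y X Y Z (Sum.inr b))) := by
    intro a b w hwa hwb hmem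
    rcases w with a' | b'
    · simp only [place, Sum.elim_inl, Sum.elim_inr] at hmem
      obtain ⟨h1, h2⟩ := vertex_core_a (hz b) hmem
      exact hwa (by rw [hA a' a h1 h2])
    · simp only [place, Sum.elim_inl, Sum.elim_inr] at hmem
      obtain ⟨h1, h2, h3⟩ := vertex_core_b (hz b) (hz b') (hC a b b') hmem
      exact hwb (by rw [hB b b' h1 h2 h3])
  have hedge : ∀ (a a' : α) (b b' : β) (q : Fin 3 → ℝ), ¬ (a = a' ∧ b = b') →
      q ∈ segment ℝ (toReal (place x y X Y Z (Sum.inl a)))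
        (toReal (place x y X Y Z (Sum.inr b))) →
      q ∈ segment ℝ (toReal (place x y X Y Z (Sum.inl a')))
        (toReal (place x y X Y Z (Sum.inr b'))) →
      (a = a' ∧ q = toReal (place x y X Y Z (Sum.inl a))) ∨
        (b = b' ∧ q = toReal (place x y X Y Z (Sum.inr b))) := by
    intro a a' b b' q hne hq hq'
    simp only [place, Sum.elim_inl, Sum.elim_inr] at hq hq' ⊢
    have := edges_core (hz b) (hz b') hq hq'
      (fun h1 h2 => hP a a' b b' (fun h => h1 (by rw [h]; exact ⟨rfl, rfl⟩))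
        (fun h => h2 (by rw [h]; exact ⟨rfl, rfl, rfl⟩)))
      (hC a b b')
      (fun h => hne ⟨hA a a' h.1.1 h.1.2, hB b b' h.2.1 h.2.2.1 h.2.2.2⟩)
    rcases this with ⟨h1, h2⟩ | ⟨h1, h2⟩
    · exact Or.inl ⟨hA a a' h1.1 h1.2, h2⟩
    · exact Or.inr ⟨hB b b' h1.1 h1.2.1 h1.2.2, h2⟩
  refine ⟨hinj, ?_, ?_⟩
  · intro u v w huv hwu hwv hmem
    obtain ⟨a, b, ⟨rfl, rfl⟩ | ⟨rfl, rfl⟩⟩ := hadj u v huv
    · exact hvert a b w hwu hwv hmem
    · rw [segment_symm] at hmem
      exact hvert a b w hwv hwu hmem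
  · intro u v u' v' huv hu'v' hne q hq hq'
    obtain ⟨a, b, hab⟩ := hadj u v huv
    obtain ⟨a', b', hab'⟩ := hadj u' v' hu'v'
    have hq1 : q ∈ segment ℝ (toReal (place x y X Y Z (Sum.inl a)))
        (toReal (place x y X Y Z (Sum.inr b))) := by
      rcases hab with ⟨rfl, rfl⟩ | ⟨rfl, rfl⟩
      · exact hq
      · rwa [segment_symm]
    have hq2 : q ∈ segment ℝ (toReal (place x y X Y Z (Sum.inl a')))
        (toReal (place x y X Y Z (Sum.inr b'))) := by
      rcases hab' with ⟨rfl, rfl⟩ | ⟨rfl, rfl⟩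
      · exact hq'
      · rwa [segment_symm]
    have hne' : ¬ (a = a' ∧ b = b') := by
      rintro ⟨rfl, rfl⟩
      apply hne
      rcases hab with ⟨rfl, rfl⟩ | ⟨rfl, rfl⟩ <;> rcases hab' with ⟨rfl, rfl⟩ | ⟨rfl, rfl⟩
      · rfl
      · exact Sym2.eq_swap
      · exact Sym2.eq_swap
      · rfl
    rcases hedge a a' b b' q hne' hq1 hq2 with ⟨rfl, hqa⟩ | ⟨rfl, hqb⟩
    · refine ⟨Sum.inl a, ?_, ?_, hqa⟩
      · rcases hab with ⟨rfl, rfl⟩ | ⟨rfl, rfl⟩
        · exact Or.inl rfl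
        · exact Or.inr rfl
      · rcases hab' with ⟨rfl, rfl⟩ | ⟨rfl, rfl⟩
        · exact Or.inl rfl
        · exact Or.inr rfl
    · refine ⟨Sum.inr b, ?_, ?_, hqb⟩
      · rcases hab with ⟨rfl, rfl⟩ | ⟨rfl, rfl⟩
        · exact Or.inr rfl
        · exact Or.inl rfl
      · rcases hab' with ⟨rfl, rfl⟩ | ⟨rfl, rfl⟩
        · exact Or.inr rfl
        · exact Or.inl rfl

/-- A drawing of `K_{n,n}` from two injective families in finite index types. -/
theorem canBeDrawn_of_families {α β : Type*} [Fintype α] [Fintype β] {n m : ℕ}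
    (hn : 2 ≤ n) (hα : n ≤ Fintype.card α) (hβ : n ≤ Fintype.card β)
    (x y : α → ℤ) (X Y Z : β → ℤ)
    (hA : ∀ a a', x a = x a' → y a = y a' → a = a')
    (hB : ∀ b b', X b = X b' → Y b = Y b' → Z b = Z b' → b = b')
    (hP : ∀ a a' b b', a ≠ a' → b ≠ b' →
      cop (x a) (y a) (x a') (y a') (X b) (Y b) (Z b) (X b') (Y b') (Z b') ≠ 0)
    (hbA : ∀ a, (1 ≤ x a ∧ x a ≤ m) ∧ (1 ≤ y a ∧ y a ≤ m))
    (hbB : ∀ b, (1 ≤ X b ∧ X b ≤ m) ∧ (1 ≤ Y b ∧ Y b ≤ m) ∧ (1 ≤ Z b ∧ Z b + 1 ≤ m)) :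
    CanBeDrawn (Knn n) m m m := by
  classical
  obtain ⟨f⟩ : Nonempty (Fin n ↪ α) := by
    apply Function.Embedding.nonempty_of_card_le
    simpa using hα
  obtain ⟨g⟩ : Nonempty (Fin n ↪ β) := by
    apply Function.Embedding.nonempty_of_card_le
    simpa using hβ
  have : Nontrivial (Fin n) := Fin.nontrivial_iff_two_le.mpr hn
  have hm : (1 : ℤ) ≤ m := by
    have b : β := g ⟨0, by omega⟩
    have := (hbB b).1
    omega
  refine ⟨place (fun i => x (f i)) (fun i => y (f i)) (fun i => X (g i)) (fun i => Y (g i))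
    (fun i => Z (g i)), ?_, ?_⟩
  · apply isGridDrawing_place
    · intro b
      have := (hbB (g b)).2.2
      omega
    · intro a a' h1 h2
      exact f.injective (hA _ _ h1 h2)
    · intro b b' h1 h2 h3
      exact g.injective (hB _ _ h1 h2 h3)
    · intro a a' b b' haa hbb
      exact hP _ _ _ _ (fun h => haa (f.injective h)) (fun h => hbb (g.injective h))
  · intro v
    rcases v with a | b
    · have := hbA (f a)
      simp only [place, Sum.elim_inl, aPt]
      refine ⟨⟨?_, ?_⟩, ⟨?_, ?_⟩, ⟨?_, ?_⟩⟩ <;> simp <;> omega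
    · have := hbB (g b)
      simp only [place, Sum.elim_inr, bPt]
      refine ⟨⟨?_, ?_⟩, ⟨?_, ?_⟩, ⟨?_, ?_⟩⟩ <;> simp <;> omega

end Pool.Agent.H88.KP
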